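import Mathlib

/-!
Combinatorics on a successor cardinal: closure points, pressing down, small sets.
-/

set_option autoImplicit false

namespace Pool.Agent.Transv

open Cardinal Order Ordinal Set

universe u v

/-- The well-ordered set of order type the successor cardinal of `μ`. -/
abbrev KK (μ : Cardinal.{u}) : Type u := (Order.succ μ).ord.ToType

section KK

variable {μ : Cardinal.{u}}

theorem mk_KK : #(KK μ) = Order.succ μ := by simp

theorem mk_Iio_le (a : KK μ) : #(Set.Iio a) ≤ μ := by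
  have := Cardinal.mk_Iio_lt a (by simp)
  rw [mk_KK] at this
  exact Order.lt_succ_iff.1 this

theorem mk_union_le' {α : Type u} {s t : Set α} (hμ : ℵ₀ ≤ μ) (hs : #s ≤ μ) (ht : #t ≤ μ) :
    #(s ∪ t : Set α) ≤ μ :=
  (mk_union_le _ _).trans ((add_le_add hs ht).trans (add_eq_self hμ).le)

theorem mk_singleton_le {α : Type u} (hμ : ℵ₀ ≤ μ) (x : α) : #({x} : Set α) ≤ μ := by
  rw [mk_singleton]; exact one_le_aleph0.trans hμ

theorem mk_Iic_le (hμ : ℵ₀ ≤ μ) (a : KK μ) : #(Set.Iic a) ≤ μ := by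
  have : Set.Iic a = Set.Iio a ∪ {a} := by
    ext x; simp [le_iff_lt_or_eq]
  rw [this]
  exact mk_union_le' hμ (mk_Iio_le a) (mk_singleton_le hμ a)

theorem cof_KK (hμ : ℵ₀ ≤ μ) : Order.cof (KK μ) = Order.succ μ := by
  rw [Ordinal.cof_toType]
  exact (Cardinal.isRegular_succ hμ).cof_ord

theorem cof_KK_ne (hμ : ℵ₀ ≤ μ) : Order.cof (KK μ) ≠ ℵ₀ := by
  rw [cof_KK hμ]
  exact (lt_of_le_of_lt hμ (Order.lt_succ μ)).ne'

theorem exists_bound (hμ : ℵ₀ ≤ μ) {s : Set (KK μ)} (hs : #s ≤ μ) : ∃ b, ∀ x ∈ s, x < b := by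
  have h : ¬ IsCofinal s := by
    intro h
    have := Order.cof_le h
    rw [cof_KK hμ] at this
    exact absurd (this.trans hs) (Order.lt_succ μ).not_ge
  exact not_isCofinal_iff.1 h

theorem exists_bound_fun {ι : Type u} (hμ : ℵ₀ ≤ μ) (hι : #ι ≤ μ) (f : ι → KK μ) :
    ∃ b, ∀ i, f i < b := by
  obtain ⟨b, hb⟩ := exists_bound hμ (s := Set.range f) (mk_range_le.trans hι)
  exact ⟨b, fun i => hb _ ⟨i, rfl⟩⟩

/-- Every set has at most `succ μ` ordinals; an unbounded one has exactly that many. -/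
theorem mk_of_unbounded (hμ : ℵ₀ ≤ μ) {s : Set (KK μ)} (hs : ∀ a, ∃ x ∈ s, a ≤ x) :
    Order.succ μ ≤ #s := by
  rw [Order.succ_le_iff]
  by_contra h
  obtain ⟨b, hb⟩ := exists_bound hμ (not_lt.1 h)
  obtain ⟨x, hx, hbx⟩ := hs b
  exact absurd (hb x hx) hbx.not_gt

theorem exists_closure_seq (x : KK μ) (R : KK μ → KK μ → Prop)
    (hR : ∀ a, ∃ b, a < b ∧ R a b) (hμ : ℵ₀ ≤ μ) :
    ∃ (g : ℕ → KK μ) (δ : KK μ), g 0 = x ∧ (∀ n, g n < g (n + 1) ∧ R (g n) (g (n + 1))) ∧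
      (∀ n, g n < δ) ∧ ∀ a < δ, ∃ n, a < g n := by
  choose F hF1 hF2 using hR
  let g : ℕ → KK μ := fun n => F^[n] x
  have hg : ∀ n, g (n + 1) = F (g n) := fun n => Function.iterate_succ_apply' F n x
  have hcard : #(Set.range g) ≤ μ := (mk_range_le_lift (f := g) |> fun h => by
    have h' : #(Set.range g) ≤ ℵ₀ := by simpa using h
    exact h'.trans hμ)
  obtain ⟨b, hb⟩ := exists_bound hμ hcard
  have hne : {d : KK μ | ∀ n, g n < d}.Nonempty := ⟨b, fun n => hb _ ⟨n, rfl⟩⟩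
  let δ := wellFounded_lt.min {d : KK μ | ∀ n, g n < d} hne
  have hδ : ∀ n, g n < δ := wellFounded_lt.min_mem {d : KK μ | ∀ n, g n < d} hne
  refine ⟨g, δ, rfl, fun n => ?_, hδ, fun a ha => ?_⟩
  · rw [hg]; exact ⟨hF1 _, hF2 _⟩
  · have h1 := wellFounded_lt.not_lt_min {d : KK μ | ∀ n, g n < d} (x := a)
    by_contra hcon
    push Not at hcon
    have hcon' : ∀ n, g n < a := by
      intro n
      refine lt_of_lt_of_le ?_ (hcon (n + 1))
      rw [hg]; exact hF1 _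
    exact h1 hcon' ha

/-- closure points of a function form a club -/
theorem isClub_closure (hμ : ℵ₀ ≤ μ) (f : KK μ → KK μ) :
    IsClub {δ : KK μ | ∀ a < δ, f a < δ} := by
  constructor
  · intro d hd hne _ δ hδ a ha
    obtain ⟨c, hc, hac⟩ := (lt_isLUB_iff hδ).1 ha
    exact (hd hc a hac).trans_le (hδ.1 hc)
  · intro x
    obtain ⟨g, δ, h0, h1, h2, h3⟩ := exists_closure_seq x (fun a b => ∀ c ≤ a, f c < b) (by
      intro a
      obtain ⟨b, hb⟩ := exists_bound hμ (s := f '' Set.Iic a ∪ {a})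
        (mk_union_le' hμ (mk_image_le.trans (mk_Iic_le hμ a)) (mk_singleton_le hμ a))
      exact ⟨b, hb a (Or.inr rfl), fun c hc => hb _ (Or.inl ⟨c, hc, rfl⟩)⟩) hμ
    refine ⟨δ, fun a ha => ?_, (h0 ▸ h2 0).le⟩
    obtain ⟨n, hn⟩ := h3 a ha
    exact ((h1 n).2 a hn.le).trans (h2 _)

/-- diagonal intersections of clubs are clubs -/
theorem isClub_diag (hμ : ℵ₀ ≤ μ) (C : KK μ → Set (KK μ)) (hC : ∀ a, IsClub (C a)) :
    IsClub {δ : KK μ | ∀ a < δ, δ ∈ C a} := by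
  constructor
  · intro d hd hne _ δ hδ a ha
    obtain ⟨c₀, hc₀, hac₀⟩ := (lt_isLUB_iff hδ).1 ha
    have hlub : IsLUB {c ∈ d | a < c} δ := by
      refine ⟨fun c hc => hδ.1 hc.1, fun b hb => hδ.2 fun c hc => ?_⟩
      rcases lt_or_ge a c with h | h
      · exact hb ⟨hc, h⟩
      · exact (h.trans hac₀.le).trans (hb ⟨hc₀, hac₀⟩)
    exact (hC a).isLUB_mem (fun c hc => hd hc.1 a hc.2)
      (⟨c₀, hc₀, hac₀⟩ : Set.Nonempty {c ∈ d | a < c}) hlub
  · intro x
    have hnx : ∀ a y, ∃ z ∈ C a, y ≤ z := fun a y => (hC a).isCofinal y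
    choose nx hnx1 hnx2 using hnx
    obtain ⟨g, δ, h0, h1, h2, h3⟩ := exists_closure_seq x (fun a b => ∀ c ≤ a, nx c a < b) (by
      intro a
      obtain ⟨b, hb⟩ := exists_bound hμ (s := (fun c => nx c a) '' Set.Iic a ∪ {a})
        (mk_union_le' hμ (mk_image_le.trans (mk_Iic_le hμ a)) (mk_singleton_le hμ a))
      exact ⟨b, hb a (Or.inr rfl), fun c hc =>
        hb _ (Or.inl (Set.mem_image_of_mem (fun c => nx c a) hc))⟩) hμ
    refine ⟨δ, fun a ha => ?_, (h0 ▸ h2 0).le⟩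
    obtain ⟨n₀, hn₀⟩ := h3 a ha
    have hmono : StrictMono g := strictMono_nat_of_lt_succ fun n => (h1 n).1
    have hlub : IsLUB ((fun n => nx a (g n)) '' Set.Ici n₀) δ := by
      constructor
      · rintro _ ⟨n, hn, rfl⟩
        have : a ≤ g n := hn₀.le.trans (hmono.monotone hn)
        exact (((h1 n).2 a this).trans (h2 _)).le
      · intro b hb
        by_contra hlt
        push Not at hlt
        obtain ⟨n, hn⟩ := h3 b hlt
        have h4 := hb (Set.mem_image_of_mem (fun n => nx a (g n))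
          (Set.mem_Ici.2 (le_max_right n n₀)))
        have h5 : g n ≤ g (max n n₀) := hmono.monotone (le_max_left _ _)
        exact absurd ((hn.trans_le h5).trans_le (hnx2 a _)) (not_lt.2 h4)
    refine (hC a).isLUB_mem ?_ (Set.Nonempty.image _ ⟨n₀, Set.mem_Ici.2 le_rfl⟩) hlub
    rintro _ ⟨n, _, rfl⟩
    exact hnx1 a _

/-- pressing down lemma -/
theorem fodor (hμ : ℵ₀ ≤ μ) {S : Set (KK μ)} (hS : IsStationary S) (f : KK μ → KK μ)
    (hf : ∀ δ ∈ S, f δ < δ) : ∃ a, IsStationary {δ ∈ S | f δ = a} := by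
  by_contra hcon
  push Not at hcon
  have h1 : ∀ a, ∃ t, IsClub t ∧ Disjoint {δ ∈ S | f δ = a} t := fun a =>
    not_isStationary_iff.1 (hcon a)
  choose C hC1 hC2 using h1
  obtain ⟨δ, hδS, hδD⟩ := hS (isClub_diag hμ C hC1)
  exact Set.disjoint_left.1 (hC2 (f δ)) ⟨hδS, rfl⟩ (hδD _ (hf δ hδS))

theorem IsStationary.inter_club (hμ : ℵ₀ ≤ μ) {S C : Set (KK μ)} (hS : IsStationary S)
    (hC : IsClub C) : IsStationary (S ∩ C) := by
  intro t ht
  obtain ⟨x, hx1, hx2, hx3⟩ := hS (hC.inter (cof_KK_ne hμ) ht)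
  exact ⟨x, ⟨hx1, hx2⟩, hx3⟩

theorem iInter_club {ι : Type u} (hμ : ℵ₀ ≤ μ) (hι : #ι ≤ μ) (C : ι → Set (KK μ))
    (hC : ∀ i, IsClub (C i)) : IsClub (⋂ i, C i) := by
  refine IsClub.iInter (cof_KK_ne hμ) ?_ hC
  rw [Cardinal.lift_id, Cardinal.lift_id, cof_KK hμ]
  exact Order.lt_succ_of_le hι

/-- a stationary set is unbounded -/
theorem IsStationary.unbounded (hμ : ℵ₀ ≤ μ) {S : Set (KK μ)} (hS : IsStationary S) (a : KK μ) :
    ∃ x ∈ S, a < x := by
  have hclub : IsClub {δ : KK μ | a < δ} := by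
    constructor
    · intro d hd hne _ δ hδ
      obtain ⟨c, hc⟩ := hne
      exact (hd hc).trans_le (hδ.1 hc)
    · intro x
      obtain ⟨b, hb⟩ := exists_bound_fun hμ (ι := ULift Bool)
        (by simpa using (Cardinal.natCast_lt_aleph0 (n := 2)).le.trans hμ)
        (fun i => if i.down then x else a)
      exact ⟨b, by simpa using hb ⟨false⟩, by simpa using (hb ⟨true⟩).le⟩
  obtain ⟨x, hx, hax⟩ := hS hclub
  exact ⟨x, hx, hax⟩

end KK

end Pool.Agent.Transv
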