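import Mathlib
import Pool.Agent.Transv.Basic

/-!
Shelah's diamond theorem (in the form needed here): if `2 ^ μ = μ⁺`, and `S` is a stationary set
of ordinals below `μ⁺` none of which is a union of few bounded sets, then functions on `μ⁺` can be
guessed on `S`.
-/

set_option autoImplicit false

namespace Pool.Agent.Transv

open Cardinal Order Ordinal Set

universe u

variable {μ : Cardinal.{u}}

/-- enumeration of all bounded pieces of functions -/
theorem exists_enum (hμ : ℵ₀ ≤ μ) (hpow : (2 : Cardinal.{u}) ^ μ = Order.succ μ)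
    {Y L : Type u} [Nonempty Y] (hY : #Y ≤ Order.succ μ) (hL : #L ≤ μ) :
    ∃ E : KK μ → L → KK μ → Y, ∀ (Z : L → KK μ → Y) (α : KK μ), ∃ γ, ∀ l, ∀ β < α,
      E γ l β = Z l β := by
  classical
  let P := Σ α : KK μ, (L → Set.Iio α → Y)
  have hsucc : ℵ₀ ≤ Order.succ μ := hμ.trans (Order.le_succ μ)
  have h1 : ∀ α : KK μ, #(L → Set.Iio α → Y) ≤ Order.succ μ := by
    intro α
    have : #(L → Set.Iio α → Y) = (#Y ^ #(Set.Iio α)) ^ #L := by simp
    rw [this]
    calc (#Y ^ #(Set.Iio α)) ^ #L ≤ ((Order.succ μ) ^ μ) ^ μ := by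
          have hne : (Order.succ μ) ≠ 0 := (aleph0_pos.trans_le hsucc).ne'
          have a1 : #Y ^ #(Set.Iio α) ≤ (Order.succ μ) ^ μ :=
            (power_le_power_right hY).trans (power_le_power_left hne (mk_Iio_le α))
          exact (power_le_power_right a1).trans
            (power_le_power_left (power_ne_zero _ hne) hL)
      _ = Order.succ μ := by
          rw [← hpow, ← power_mul, ← power_mul, mul_eq_self hμ, mul_eq_self hμ]
  have h2 : #P ≤ #(KK μ) := by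
    rw [mk_KK]
    have : #P ≤ #(KK μ) * Order.succ μ := by
      rw [mk_sigma]
      exact (sum_le_sum _ (fun _ => Order.succ μ) h1).trans (by simp)
    rw [mk_KK, mul_eq_self hsucc] at this
    exact this
  obtain ⟨e⟩ : Nonempty (P ↪ KK μ) := h2
  have hK : Nonempty (KK μ) := by
    rw [← Cardinal.mk_ne_zero_iff, mk_KK]
    exact (aleph0_pos.trans_le hsucc).ne'
  have hP : Nonempty P := ⟨⟨Classical.choice hK, fun _ _ => Classical.arbitrary Y⟩⟩
  let inv : KK μ → P := Function.invFun e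
  have hinv : ∀ p, inv (e p) = p := Function.leftInverse_invFun e.injective
  let ev : P → L → KK μ → Y := fun p l β =>
    if h : β < p.1 then p.2 l ⟨β, h⟩ else Classical.arbitrary Y
  refine ⟨fun γ => ev (inv γ),
    fun Z α => ⟨e ⟨α, fun l β => Z l β⟩, fun l β hβ => ?_⟩⟩
  change ev (inv (e ⟨α, fun l β => Z l β⟩)) l β = Z l β
  rw [hinv]
  simp only [ev]
  rw [dif_pos hβ]

theorem diamond (hμ : ℵ₀ ≤ μ) (hpow : (2 : Cardinal.{u}) ^ μ = Order.succ μ)
    {Y J : Type u} [Nonempty Y] (hY : #Y ≤ Order.succ μ) [LinearOrder J] (hJ : #J ≤ μ)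
    (A : KK μ → J → Set (KK μ)) (hAmono : ∀ δ, Monotone (A δ))
    (hAcov : ∀ δ, ∀ α < δ, ∃ j, α ∈ A δ j) (hAcard : ∀ δ j, #(A δ j) < μ)
    {S : Set (KK μ)} (hS : IsStationary S)
    (hQ : ∀ δ ∈ S, ∀ i : KK μ → J, ∃ j, ∀ ε < δ, ∃ α < δ, ε < α ∧ i α ≤ j) :
    ∃ g : KK μ → KK μ → Y, ∀ y : KK μ → Y, ∃ δ ∈ S, ∀ β < δ, g δ β = y β := by
  classical
  let M : Type u := μ.ord.ToType
  have hM : #M = μ := by simp [M]
  have hL : #(J × M) ≤ μ := by
    rw [mk_prod, Cardinal.lift_id, Cardinal.lift_id, hM]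
    exact (mul_le_mul_left hJ _).trans (mul_eq_self hμ).le
  obtain ⟨E, hE⟩ := exists_enum hμ hpow hY hL
  -- one index `j` works
  have claim : ∃ j : J, ∀ Z : M → KK μ → Y, ∃ δ ∈ S, ∀ ε < δ, ∃ α ∈ A δ j, ε < α ∧
      ∃ γ ∈ A δ j, ∀ τ, ∀ β < α, E γ (j, τ) β = Z τ β := by
    by_contra hcon
    push Not at hcon
    choose Z hZ using hcon
    have hf : ∀ α, ∃ γ, ∀ l : J × M, ∀ β < α, E γ l β = Z l.1 l.2 β := fun α =>
      hE (fun l => Z l.1 l.2) α
    choose f hf using hf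
    obtain ⟨δ, hδS, hδC⟩ := hS (isClub_closure hμ f)
    have hi : ∀ α : KK μ, ∃ j : J, α < δ → (α ∈ A δ j ∧ f α ∈ A δ j) := by
      intro α
      by_cases hα : α < δ
      · obtain ⟨j1, hj1⟩ := hAcov δ α hα
        obtain ⟨j2, hj2⟩ := hAcov δ (f α) (hδC α hα)
        exact ⟨max j1 j2, fun _ => ⟨hAmono δ (le_max_left _ _) hj1,
          hAmono δ (le_max_right _ _) hj2⟩⟩
      · obtain ⟨j, -⟩ : ∃ j : J, True := by
          by_contra hno
          push Not at hno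
          obtain ⟨j, _⟩ := hQ δ hδS (fun a => False.elim (by
            obtain ⟨x, hx, hx2⟩ := IsStationary.unbounded hμ hS a
            obtain ⟨j, _⟩ := hAcov x a hx2
            exact hno j))
          exact hno j
        exact ⟨j, fun h => absurd h hα⟩
    choose i hi using hi
    obtain ⟨j, hj⟩ := hQ δ hδS i
    obtain ⟨ε, hε, hε2⟩ := hZ j δ hδS
    obtain ⟨α, hα, hεα, hαj⟩ := hj ε hε
    have h1 := hi α hα
    obtain ⟨τ, β, hβ, hne⟩ := hε2 α (hAmono δ hαj h1.1) hεα (f α) (hAmono δ hαj h1.2)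
    exact hne (hf α (j, τ) β hβ)
  obtain ⟨j, hj⟩ := claim
  by_contra hno
  push Not at hno
  choose Yf hYf using hno
  -- recursive choice
  let cond : (τ : M) → ((σ : M) → σ < τ → KK μ → Y) → KK μ → KK μ → KK μ × KK μ → Prop :=
    fun τ Zp δ β p => p.1 ∈ A δ j ∧ p.2 ∈ A δ j ∧ β < p.1 ∧
      ∀ (σ : M) (hσ : σ < τ), ∀ β' < p.1, E p.2 (j, σ) β' = Zp σ hσ β'
  let G : (τ : M) → ((σ : M) → σ < τ → KK μ → Y) → KK μ → KK μ → Y :=
    fun τ Zp δ β => if h : ∃ p, cond τ Zp δ β p then E (Classical.choose h).2 (j, τ) β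
      else Classical.arbitrary Y
  let Z : M → KK μ → Y := (wellFounded_lt (α := M)).fix (fun τ Zp => Yf (G τ Zp))
  have hZ : ∀ τ, Z τ = Yf (G τ (fun σ _ => Z σ)) := fun τ =>
    (wellFounded_lt (α := M)).fix_eq (fun τ Zp => Yf (G τ Zp)) τ
  obtain ⟨δ, hδS, hδ⟩ := hj Z
  have key : ∀ τ : M, ∃ p : KK μ × KK μ, ∃ β, p.1 ∈ A δ j ∧ p.2 ∈ A δ j ∧ β < p.1 ∧
      (∀ σ < τ, ∀ β' < p.1, E p.2 (j, σ) β' = Z σ β') ∧ E p.2 (j, τ) β ≠ Z τ β := by
    intro τ
    obtain ⟨β, hβ, hne⟩ := hYf (G τ (fun σ _ => Z σ)) δ hδS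
    rw [← hZ τ] at hne
    obtain ⟨α, hα, hβα, γ, hγ, hag⟩ := hδ β hβ
    have hex : ∃ p, cond τ (fun σ _ => Z σ) δ β p :=
      ⟨(α, γ), hα, hγ, hβα, fun σ _ β' hβ' => hag σ β' hβ'⟩
    have hG : G τ (fun σ _ => Z σ) δ β = E (Classical.choose hex).2 (j, τ) β := by
      simp only [G]
      rw [dif_pos hex]
    rw [hG] at hne
    obtain ⟨c1, c2, c3, c4⟩ := Classical.choose_spec hex
    exact ⟨Classical.choose hex, β, c1, c2, c3, fun σ hσ β' hβ' => c4 σ hσ β' hβ', hne⟩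
  choose p b hp1 hp2 hb hag hne using key
  have hinj : Function.Injective p := by
    intro σ τ hst
    by_contra hne'
    wlog hlt : σ < τ generalizing σ τ
    · exact this hst.symm (Ne.symm hne') (lt_of_le_of_ne (not_lt.1 hlt) (Ne.symm hne'))
    have h1 := hag τ σ hlt (b σ) (by rw [← hst]; exact hb σ)
    rw [← hst] at h1
    exact hne σ h1
  have hcard : #M ≤ #(A δ j) * #(A δ j) := by
    have : #M ≤ #(↥(A δ j) × ↥(A δ j)) :=
      mk_le_of_injective (f := fun τ => (⟨(p τ).1, hp1 τ⟩, ⟨(p τ).2, hp2 τ⟩)) (by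
        intro σ τ hst
        simp only [Prod.mk.injEq, Subtype.mk.injEq] at hst
        exact hinj (Prod.ext hst.1 hst.2))
    simpa using this
  rw [hM] at hcard
  exact absurd hcard (mul_lt_of_lt hμ (hAcard δ j) (hAcard δ j)).not_ge

end Pool.Agent.Transv
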