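import Mathlib

/-!
Definitions for MP_33d970_lc.
-/

set_option autoImplicit false

namespace Pool.Agent.Transv

open Cardinal Order Ordinal Set

universe u

/-- The degree of disjunction of a family of sets: the least cardinal `δ` such that any two
distinct members share fewer than `δ` points. -/
noncomputable def degDisj {X : Type u} (F : Set (Set X)) : Cardinal.{u} :=
  sInf {δ | ∀ A ∈ F, ∀ B ∈ F, A ≠ B → #(A ∩ B : Set X) < δ}

/-- `T` is a `θ`-transversal of the family `F`: it meets every member of `F`, in fewer than `θ`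
points. -/
def IsTransversal {X : Type u} (F : Set (Set X)) (θ : Cardinal.{u}) (T : Set X) : Prop :=
  ∀ A ∈ F, (T ∩ A).Nonempty ∧ #(T ∩ A : Set X) < θ

/-- `ι` is good for `(κ, lam)`: every family of `ι` sets, each of cardinality `κ`, with degree of
disjunction `lam`, has a `lam⁺`-transversal. -/
def IsGood (κ lam ι : Cardinal.{u}) : Prop :=
  ∀ (X : Type u) (F : Set (Set X)), #F = ι → (∀ A ∈ F, #A = κ) → degDisj F = lam →
    ∃ T : Set X, IsTransversal F (Order.succ lam) T

/-- There are a stationary subset `S` of `μ⁺` and sets `B δ ⊆ δ` of cardinality `lam⁺`, for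
`δ ∈ S`, any two of which share fewer than `lam` points. -/
def HasLadders (μ lam : Cardinal.{u}) : Prop :=
  ∃ (S : Set (Order.succ μ).ord.ToType)
    (B : (Order.succ μ).ord.ToType → Set (Order.succ μ).ord.ToType),
    IsStationary S ∧ (∀ δ ∈ S, B δ ⊆ Set.Iio δ ∧ #(B δ) = Order.succ lam) ∧
      ∀ δ ∈ S, ∀ δ' ∈ S, δ ≠ δ' → #(B δ ∩ B δ' : Set (Order.succ μ).ord.ToType) < lam

end Pool.Agent.Transv
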