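import Mathlib
import Pool.Agent.Transv.Basic
import Pool.Agent.Transv.Defs

/-!
Ladder systems with small intersections on stationary subsets of a successor cardinal.
-/

set_option autoImplicit false

namespace Pool.Agent.Transv

open Cardinal Order Ordinal Set

universe u v

/-- If all initial segments of a linear preorder have fewer than `c` elements, then there are at
most `c` elements. -/
theorem mk_le_of_initial {Λ : Type u} {M : Type v} [LinearOrder M] (h : Λ → M)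
    {c : Cardinal.{u}} (hc : ℵ₀ ≤ c) (H : ∀ q, #{q' | h q' ≤ h q} < c) : #Λ ≤ c := by
  by_contra hcon
  push Not at hcon
  obtain ⟨D, hD⟩ := (Cardinal.le_mk_iff_exists_set (α := Λ)).1 hcon.le
  have hcov : (Set.univ : Set Λ) ⊆ ⋃ d : D, {q' | h q' ≤ h d} := by
    intro q _
    by_contra hq
    simp only [Set.mem_iUnion, Set.mem_ofPred_eq, not_exists, not_le] at hq
    have h1 : D ⊆ {q' | h q' ≤ h q} := fun d hd => (hq ⟨d, hd⟩).le
    have := (mk_le_mk_of_subset h1).trans_lt (H q)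
    rw [hD] at this
    exact lt_irrefl _ this
  have h2 : #Λ ≤ #D * c := by
    rw [← mk_univ (α := Λ)]
    refine (mk_le_mk_of_subset hcov).trans ((mk_iUnion_le _).trans ?_)
    exact mul_le_mul_right (ciSup_le' fun d : D => (H d).le) _
  rw [hD, mul_eq_self hc] at h2
  exact absurd h2 hcon.not_ge

section

variable {μ : Cardinal.{u}}

/-- Each proper initial segment of `μ⁺` is an increasing union, indexed by a cofinal subset of
`μ`, of sets of size less than `μ`. -/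
theorem exists_filtration (hμ : ℵ₀ ≤ μ) :
    ∃ (J : Set μ.ord.ToType) (e : KK μ → KK μ → μ.ord.ToType), IsCofinal J ∧
      #J = μ.ord.cof ∧ (∀ δ j, #{α | α < δ ∧ e δ α ≤ j} < μ) := by
  obtain ⟨J, hJ, hJ'⟩ := Order.exists_cof_eq μ.ord.ToType
  have hemb : ∀ δ : KK μ, Nonempty (Set.Iio δ ↪ μ.ord.ToType) := by
    intro δ
    have h1 : #(Set.Iio δ) ≤ #μ.ord.ToType := (mk_Iio_le δ).trans (by simp)
    exact h1
  have hne : Nonempty μ.ord.ToType := by
    rw [← Cardinal.mk_ne_zero_iff]; simpa using (aleph0_pos.trans_le hμ).ne'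
  classical
  refine ⟨J, fun δ α => if h : α < δ then (hemb δ).some ⟨α, h⟩ else Classical.arbitrary _, hJ,
    by rw [hJ', Ordinal.cof_toType], fun δ j => ?_⟩
  have h1 : #(Set.Iic j) < μ := by
    have h2 : #(Set.Iio j) < μ := by
      have := Cardinal.mk_Iio_lt j (by simp)
      simpa using this
    have : Set.Iic j = Set.Iio j ∪ {j} := by
      ext x; simp [le_iff_lt_or_eq]
    rw [this]
    refine (mk_union_le _ _).trans_lt (add_lt_of_lt hμ h2 ?_)
    rw [mk_singleton]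
    exact one_lt_aleph0.trans_le hμ
  refine lt_of_le_of_lt ?_ h1
  refine mk_le_of_injective
    (f := fun x : {α | α < δ ∧ (if h : α < δ then (hemb δ).some ⟨α, h⟩ else
      Classical.arbitrary _) ≤ j} => (⟨(hemb δ).some ⟨x.1, x.2.1⟩, ?_⟩ : Set.Iic j)) ?_
  · have := x.2.2
    rw [dif_pos x.2.1] at this
    exact this
  · intro x y hxy
    have h3 := (hemb δ).some.injective (congrArg Subtype.val hxy)
    have h4 : (x : KK μ) = y := Subtype.mk.inj h3
    exact Subtype.ext h4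

/-- A family of fewer-than-`lam`-intersecting sets cannot have many members with `lam` points in a
common small set. -/
theorem core {lam : Cardinal.{u}} (hμ : ℵ₀ ≤ μ) (hpow : ∀ ν < μ, ν ^ lam ≤ μ)
    {S : Set (KK μ)} (hS : IsStationary S) (B : KK μ → Set (KK μ))
    (hB : ∀ δ ∈ S, ∀ δ' ∈ S, δ ≠ δ' → #(B δ ∩ B δ' : Set (KK μ)) < lam)
    {J : Type u} (hJ : #J ≤ μ) (U : J → Set (KK μ)) (hU : ∀ j, #(U j) < μ)
    (hj : ∀ δ ∈ S, ∃ j, lam ≤ #(B δ ∩ U j : Set (KK μ))) : False := by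
  have h1 : S ⊆ ⋃ j, {δ ∈ S | lam ≤ #(B δ ∩ U j : Set (KK μ))} := by
    intro δ hδ
    obtain ⟨j, hj'⟩ := hj δ hδ
    exact Set.mem_iUnion.2 ⟨j, hδ, hj'⟩
  have h2 := hS.mono h1
  rw [isStationary_iUnion_iff (cof_KK_ne hμ) (by
    rw [Cardinal.lift_id, Cardinal.lift_id, cof_KK hμ]; exact Order.lt_succ_of_le hJ)] at h2
  obtain ⟨j, hj2⟩ := h2
  have h3 : ∀ δ : {δ ∈ S | lam ≤ #(B δ ∩ U j : Set (KK μ))},
      ∃ f : lam.out → U j, Function.Injective f ∧ ∀ x, (f x : KK μ) ∈ B δ := by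
    rintro ⟨δ, hδ, hl⟩
    rw [← mk_out lam] at hl
    obtain ⟨f⟩ : Nonempty (lam.out ↪ ↥(B δ ∩ U j)) := hl
    exact ⟨fun x => ⟨f x, (f x).2.2⟩, fun x y hxy => f.injective (Subtype.ext (by
      simpa using hxy)), fun x => (f x).2.1⟩
  choose f hf1 hf2 using h3
  have hinj : Function.Injective f := by
    intro δ δ' hff
    by_contra hne
    have h4 := hB δ.1 δ.2.1 δ'.1 δ'.2.1 (fun h => hne (Subtype.ext h))
    have h5 : lam ≤ #(B δ.1 ∩ B δ'.1 : Set (KK μ)) := by
      conv_lhs => rw [← mk_out lam]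
      refine mk_le_of_injective (f := fun x => ⟨(f δ x : KK μ), hf2 δ x, ?_⟩) ?_
      · rw [hff]; exact hf2 δ' x
      · intro x y hxy
        have h4 : (f δ x : KK μ) = f δ y := Subtype.mk.inj hxy
        exact hf1 δ (Subtype.ext h4)
    exact absurd h4 h5.not_gt
  have h6 : #{δ ∈ S | lam ≤ #(B δ ∩ U j : Set (KK μ))} ≤ μ := by
    refine (mk_le_of_injective hinj).trans ?_
    rw [← Cardinal.power_def, mk_out]
    exact hpow _ (hU j)
  have h7 := mk_of_unbounded hμ (s := {δ ∈ S | lam ≤ #(B δ ∩ U j : Set (KK μ))}) (fun a => by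
    obtain ⟨x, hx, hax⟩ := IsStationary.unbounded hμ hj2 a
    exact ⟨x, hx, hax.le⟩)
  exact absurd (h7.trans h6) (Order.lt_succ μ).not_ge

/-- In a ladder system over `μ` with `cof μ ≤ lam`, almost all ladders meet all proper initial
segments in at most `lam` points. -/
theorem ladders_thin {lam : Cardinal.{u}} (hlam : ℵ₀ ≤ lam) (hlm : lam < μ)
    (hcof : μ.ord.cof ≤ lam) (hpow : ∀ ν < μ, ν ^ lam ≤ μ)
    (h : HasLadders μ lam) :
    ∃ (S : Set (KK μ)) (B : KK μ → Set (KK μ)), IsStationary S ∧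
      (∀ δ ∈ S, B δ ⊆ Set.Iio δ ∧ #(B δ) = Order.succ lam ∧
        ∀ β < δ, #(B δ ∩ Set.Iio β : Set (KK μ)) ≤ lam) ∧
      ∀ δ ∈ S, ∀ δ' ∈ S, δ ≠ δ' → #(B δ ∩ B δ' : Set (KK μ)) < lam := by
  have hμ : ℵ₀ ≤ μ := hlam.trans hlm.le
  obtain ⟨S, B, hS, hB1, hB2⟩ := h
  obtain ⟨J, e, hJ, hJ', hcard⟩ := exists_filtration hμ
  have hbad : ¬ IsStationary {δ ∈ S | ∃ β < δ, lam < #(B δ ∩ Set.Iio β : Set (KK μ))} := by
    intro hbad
    have hch : ∀ δ : KK μ, ∃ β, δ ∈ {δ ∈ S | ∃ β < δ, lam < #(B δ ∩ Set.Iio β : Set (KK μ))} →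
        β < δ ∧ lam < #(B δ ∩ Set.Iio β : Set (KK μ)) := by
      intro δ
      by_cases hδ : δ ∈ {δ ∈ S | ∃ β < δ, lam < #(B δ ∩ Set.Iio β : Set (KK μ))}
      · obtain ⟨β, hβ⟩ := hδ.2
        exact ⟨β, fun _ => hβ⟩
      · exact ⟨δ, fun h => absurd h hδ⟩
    choose f hf using hch
    obtain ⟨b, hb⟩ := fodor hμ hbad f (fun δ hδ => (hf δ hδ).1)
    refine core hμ hpow hb B (fun δ hδ δ' hδ' hne => hB2 δ hδ.1.1 δ' hδ'.1.1 hne)
      (J := J) (by rw [hJ']; exact hcof.trans hlm.le) (fun j => {α | α < b ∧ e b α ≤ j})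
      (fun j => hcard b j) ?_
    intro δ hδ
    by_contra hcon
    push Not at hcon
    have h1 : B δ ∩ Set.Iio b ⊆ ⋃ j : J, B δ ∩ {α | α < b ∧ e b α ≤ j} := by
      intro α hα
      obtain ⟨j, hj, hj'⟩ := hJ (e b α)
      exact Set.mem_iUnion.2 ⟨⟨j, hj⟩, hα.1, hα.2, hj'⟩
    have h2 : #(B δ ∩ Set.Iio b : Set (KK μ)) ≤ lam := by
      refine (mk_le_mk_of_subset h1).trans ((mk_iUnion_le _).trans ?_)
      refine (mul_le_mul' (hJ'.le.trans hcof) (ciSup_le' fun j => (hcon j).le)).trans ?_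
      exact (mul_eq_self hlam).le
    have h3 := (hf δ hδ.1).2
    rw [hδ.2] at h3
    exact absurd h3 h2.not_gt
  obtain ⟨C, hC, hdis⟩ := not_isStationary_iff.1 hbad
  refine ⟨S ∩ C, B, IsStationary.inter_club hμ hS hC, fun δ hδ => ⟨(hB1 δ hδ.1).1,
    (hB1 δ hδ.1).2, fun β hβ => ?_⟩, fun δ hδ δ' hδ' hne => hB2 δ hδ.1 δ' hδ'.1 hne⟩
  by_contra hlt
  exact Set.disjoint_left.1 hdis ⟨hδ.1, β, hβ, not_le.1 hlt⟩ hδ.2

theorem exists_mk_Iio {c lam : Cardinal.{u}} (h : c < lam) :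
    ∃ q : lam.ord.ToType, #(Set.Iio q) = c := by
  have h1 : c.ord < typeLT lam.ord.ToType := by
    rw [type_toType]; exact ord_lt_ord.2 h
  refine ⟨enum (α := lam.ord.ToType) (· < ·) ⟨c.ord, h1⟩, ?_⟩
  have h2 := card_typein (r := (· < · : lam.ord.ToType → lam.ord.ToType → Prop))
    (enum (α := lam.ord.ToType) (· < ·) ⟨c.ord, h1⟩)
  rw [typein_enum, card_ord] at h2
  exact h2.symm

/-- If the set `Λ` of cardinality `lam` is mapped into `μ` with preimages of initial segments of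
size less than `lam`, then `μ` and `lam` have the same cofinality. -/
theorem cof_eq_of_small_fibers {lam : Cardinal.{u}} (hlam : ℵ₀ ≤ lam)
    {Λ : Type u} (hΛ : lam ≤ #Λ) (h : Λ → μ.ord.ToType) (H : ∀ m, #{q | h q ≤ m} < lam) :
    μ.ord.cof = lam.ord.cof := by
  apply le_antisymm
  · by_contra hlt
    push Not at hlt
    have hbd : ∀ {s : Set μ.ord.ToType}, #s ≤ lam.ord.cof → ∃ m, ∀ x ∈ s, x < m := by
      intro s hs
      have h1 : ¬ IsCofinal s := by
        intro hc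
        have := Order.cof_le hc
        rw [Ordinal.cof_toType] at this
        exact absurd (this.trans hs) hlt.not_ge
      exact not_isCofinal_iff.1 h1
    by_cases hreg : lam ≤ lam.ord.cof
    · -- `lam` regular
      obtain ⟨D, hD⟩ := Cardinal.le_mk_iff_exists_set.1 hΛ
      obtain ⟨m, hm⟩ := hbd (s := h '' D) (mk_image_le.trans (hD.le.trans hreg))
      have h2 : D ⊆ {q | h q ≤ m} := fun q hq => (hm _ ⟨q, hq, rfl⟩).le
      have h3 := (mk_le_mk_of_subset h2).trans_lt (H m)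
      rw [hD] at h3
      exact lt_irrefl _ h3
    · push Not at hreg
      have hne : lam ≠ ℵ₀ := by
        rintro rfl
        rw [Cardinal.isRegular_aleph0.cof_ord] at hreg
        exact lt_irrefl _ hreg
      have hlam' : ℵ₀ < lam := lt_of_le_of_ne hlam hne.symm
      have hlim : ∀ d < lam, Order.succ d < lam := by
        intro d hd
        rcases lt_or_eq_of_le (Order.succ_le_of_lt hd) with h1 | h1
        · exact h1
        · exfalso
          rcases lt_or_ge d ℵ₀ with hf | hf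
          · have : Order.succ d < ℵ₀ := Cardinal.isSuccLimit_aleph0.succ_lt hf
            exact absurd (h1 ▸ hlam') this.le.not_gt
          · have := (Cardinal.isRegular_succ hf).cof_ord
            rw [h1] at this
            rw [this] at hreg
            exact lt_irrefl _ hreg
      obtain ⟨Q, hQ, hQ'⟩ := Order.exists_cof_eq lam.ord.ToType
      rw [Ordinal.cof_toType] at hQ'
      have hm : ∀ q : lam.ord.ToType, ∃ m, #(Set.Iio q) ≤ #{x | h x ≤ m} := by
        intro q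
        by_contra hcon
        push Not at hcon
        have hq : #(Set.Iio q) < lam := by
          have := Cardinal.mk_Iio_lt q (by simp)
          simpa using this
        have h4 := mk_le_of_initial h (c := max #(Set.Iio q) ℵ₀) (le_max_right _ _)
          (fun x => (hcon (h x)).trans_le (le_max_left _ _))
        exact absurd (hΛ.trans h4) (max_lt hq hlam').not_ge
      choose m hm using hm
      obtain ⟨m₀, hm₀⟩ := hbd (s := m '' Q) (mk_image_le.trans hQ'.le)
      have h5 : ∀ q ∈ Q, #(Set.Iio q) ≤ #{x | h x ≤ m₀} := fun q hq =>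
        (hm q).trans (mk_le_mk_of_subset fun x hx => le_trans hx (hm₀ _ ⟨q, hq, rfl⟩).le)
      obtain ⟨q', hq'⟩ := exists_mk_Iio (hlim _ (H m₀))
      obtain ⟨q, hq, hqq⟩ := hQ q'
      have h6 : Order.succ #{x | h x ≤ m₀} ≤ #{x | h x ≤ m₀} := by
        rw [← hq']
        exact (mk_le_mk_of_subset (Set.Iio_subset_Iio hqq)).trans (h5 q hq)
      exact absurd (Order.lt_succ _) h6.not_gt
  · by_contra hlt
    push Not at hlt
    obtain ⟨J, hJ, hJ'⟩ := Order.exists_cof_eq μ.ord.ToType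
    rw [Ordinal.cof_toType] at hJ'
    have hsup : (⨆ j : J, #{q | h q ≤ j}) < lam :=
      Cardinal.iSup_lt_of_lt_cof_ord (by rw [hJ']; exact hlt) (fun j => H j)
    have hcov : (Set.univ : Set Λ) ⊆ ⋃ j : J, {q | h q ≤ j} := by
      intro q _
      obtain ⟨j, hj, hj'⟩ := hJ (h q)
      exact Set.mem_iUnion.2 ⟨⟨j, hj⟩, hj'⟩
    have h2 : #Λ ≤ #J * ⨆ j : J, #{q | h q ≤ j} := by
      rw [← mk_univ (α := Λ)]
      exact (mk_le_mk_of_subset hcov).trans (mk_iUnion_le _)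
    have h3 : #J * (⨆ j : J, #{q | h q ≤ j}) < lam :=
      mul_lt_of_lt hlam (by rw [hJ']; exact hlt.trans_le (Ordinal.cof_ord_le lam)) hsup
    exact absurd (hΛ.trans h2) h3.not_ge

/-- There are no ladder systems when the cofinalities differ. -/
theorem not_hasLadders_of_cof_ne {lam : Cardinal.{u}} (hlam : ℵ₀ ≤ lam) (hlm : lam < μ)
    (hcof : μ.ord.cof ≠ lam.ord.cof) (hpow : ∀ ν < μ, ν ^ lam ≤ μ) : ¬ HasLadders μ lam := by
  rintro ⟨S, B, hS, hB1, hB2⟩
  have hμ : ℵ₀ ≤ μ := hlam.trans hlm.le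
  obtain ⟨J, e, hJ, hJ', hcard⟩ := exists_filtration hμ
  have hch : ∀ δ : KK μ, ∃ β, δ ∈ S → β < δ ∧ lam ≤ #(B δ ∩ Set.Iic β : Set (KK μ)) := by
    intro δ
    by_cases hδ : δ ∈ S
    · have h1 : ∃ β ∈ B δ, lam ≤ #(B δ ∩ Set.Iic β : Set (KK μ)) := by
        by_contra hcon
        push Not at hcon
        have h2 : #(B δ) ≤ lam := by
          refine mk_le_of_initial (fun x : B δ => (x : KK μ)) hlam (fun q => ?_)
          refine lt_of_le_of_lt ?_ (hcon q.1 q.2)
          refine mk_le_of_injective (f := fun x : {q' : B δ | (q' : KK μ) ≤ q} =>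
            (⟨x.1.1, x.1.2, x.2⟩ : (B δ ∩ Set.Iic (q : KK μ) : Set (KK μ)))) ?_
          intro x y hxy
          have h4 : (x.1.1 : KK μ) = y.1.1 := Subtype.mk.inj hxy
          exact Subtype.ext (Subtype.ext h4)
        rw [(hB1 δ hδ).2] at h2
        exact absurd (Order.lt_succ lam) h2.not_gt
      obtain ⟨β, hβ, hβ2⟩ := h1
      exact ⟨β, fun _ => ⟨(hB1 δ hδ).1 hβ, hβ2⟩⟩
    · exact ⟨δ, fun h => absurd h hδ⟩
  choose f hf using hch
  obtain ⟨a, ha⟩ := fodor hμ hS f (fun δ hδ => (hf δ hδ).1)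
  obtain ⟨b, hb⟩ := exists_bound hμ (mk_singleton_le hμ a)
  have hab : a < b := hb a rfl
  refine core hμ hpow ha B (fun δ hδ δ' hδ' hne => hB2 δ hδ.1 δ' hδ'.1 hne)
    (J := J) (by rw [hJ']; exact Ordinal.cof_ord_le μ) (fun j => {α | α < b ∧ e b α ≤ j})
    (fun j => hcard b j) ?_
  intro δ hδ
  by_contra hcon
  push Not at hcon
  refine hcof (cof_eq_of_small_fibers hlam (Λ := ↥(B δ ∩ Set.Iic a)) ?_
    (fun x => e b x) (fun m => ?_))
  · have := (hf δ hδ.1).2
    rwa [hδ.2] at this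
  · obtain ⟨j, hj, hmj⟩ := hJ m
    refine lt_of_le_of_lt ?_ (hcon ⟨j, hj⟩)
    refine mk_le_of_injective (f := fun x : {q : ↥(B δ ∩ Set.Iic a) | e b q ≤ m} =>
      (⟨x.1.1, x.1.2.1, lt_of_le_of_lt x.1.2.2 hab, le_trans x.2 hmj⟩ :
        (B δ ∩ {α | α < b ∧ e b α ≤ j} : Set (KK μ)))) ?_
    intro x y hxy
    have h4 : (x.1.1 : KK μ) = y.1.1 := Subtype.mk.inj hxy
    exact Subtype.ext (Subtype.ext h4)

end

end Pool.Agent.Transv
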