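import Mathlib
import Pool.Agent.Transv.Ladders
import Pool.Agent.Transv.Diamond

/-!
Families without small transversals, built from ladder systems.
-/

set_option autoImplicit false

namespace Pool.Agent.Transv

open Cardinal Order Ordinal Set

universe u

/-- Every indexed family of at most `ι` sets of size `κ`, with pairwise intersections smaller than
`lam`, has a set meeting each member in at least one and at most `lam` points. -/
def HasTr (κ lam ι : Cardinal.{u}) : Prop :=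
  ∀ (I X : Type u) (A : I → Set X), #I ≤ ι → (∀ i, #(A i) = κ) →
    (∀ i j, i ≠ j → #(A i ∩ A j : Set X) < lam) →
    ∃ T : Set X, ∀ i, (T ∩ A i).Nonempty ∧ #(T ∩ A i : Set X) ≤ lam

variable {μ : Cardinal.{u}}

theorem not_hasTr_of_hasLadders {κ lam : Cardinal.{u}} (hlam : ℵ₀ ≤ lam) (hlk : lam < κ)
    (hκμ : κ ≤ Order.succ μ) (hlm : lam < μ) (hcof : μ.ord.cof ≤ lam)
    (h2 : (2 : Cardinal.{u}) ^ μ = Order.succ μ) (hpow : ∀ ν < μ, ν ^ lam ≤ μ)
    (hL : HasLadders μ lam) : ¬ HasTr κ lam (Order.succ μ) := by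
  intro htr
  have hμ : ℵ₀ ≤ μ := hlam.trans hlm.le
  have hκ : ℵ₀ ≤ κ := hlam.trans hlk.le
  obtain ⟨S, B, hS, hB1, hB2⟩ := ladders_thin hlam hlm hcof hpow hL
  obtain ⟨J, e, hJ, hJ', hcard⟩ := exists_filtration hμ
  let Y : Type u := κ.out
  have hY : #Y = κ := mk_out κ
  have hYne : Nonempty Y := by
    rw [← Cardinal.mk_ne_zero_iff, hY]; exact (aleph0_pos.trans_le hκ).ne'
  obtain ⟨g, hg⟩ := diamond (Y := Y) (J := J) hμ h2 (hY.le.trans hκμ)
    (by rw [hJ']; exact hcof.trans hlm.le) (fun δ j => {α | α < δ ∧ e δ α ≤ j})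
    (fun δ j j' hjj α hα => ⟨hα.1, hα.2.trans hjj⟩)
    (fun δ α hα => by
      obtain ⟨j, hj, hj'⟩ := hJ (e δ α)
      exact ⟨⟨j, hj⟩, hα, hj'⟩)
    (fun δ j => hcard δ j) hS (by
      intro δ hδ i
      by_contra hcon
      push Not at hcon
      choose ε hε1 hε2 using hcon
      have hcov : B δ ⊆ ⋃ j : J, (B δ ∩ Set.Iic (ε j)) := by
        intro α hα
        have hαδ : α < δ := (hB1 δ hδ).1 hα
        refine Set.mem_iUnion.2 ⟨i α, hα, ?_⟩
        by_contra hlt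
        exact absurd (hε2 (i α) α hαδ (not_le.1 hlt)) (lt_irrefl _)
      have hle : #(B δ) ≤ lam := by
        refine (mk_le_mk_of_subset hcov).trans ((mk_iUnion_le _).trans ?_)
        refine (mul_le_mul' (hJ'.le.trans hcof) (ciSup_le' fun j => ?_)).trans
          (mul_eq_self hlam).le
        have h3 : B δ ∩ Set.Iic (ε j) ⊆ (B δ ∩ Set.Iio (ε j)) ∪ {ε j} := by
          rintro x ⟨hx1, hx2⟩
          rcases lt_or_eq_of_le (Set.mem_Iic.1 hx2) with h | h
          · exact Or.inl ⟨hx1, h⟩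
          · exact Or.inr h
        exact (mk_le_mk_of_subset h3).trans
          (mk_union_le' hlam ((hB1 δ hδ).2.2 _ (hε1 j)) (mk_singleton_le hlam _))
      rw [(hB1 δ hδ).2.1] at hle
      exact absurd (Order.lt_succ lam) hle.not_gt)
  -- the family
  let X : Type u := (KK μ × Y) ⊕ (KK μ × Y)
  let A : KK μ ⊕ S → Set X := fun i => match i with
    | Sum.inl γ => Set.range fun y : Y => Sum.inl (γ, y)
    | Sum.inr δ => ((fun γ => Sum.inl (γ, g δ γ)) '' B δ) ∪
        Set.range fun y : Y => Sum.inr ((δ : KK μ), y)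
  have hA1 : ∀ i, #(A i) = κ := by
    rintro (γ | δ)
    · change #(Set.range fun y : Y => (Sum.inl (γ, y) : X)) = κ
      rw [mk_range_eq _ (fun y y' h => by simpa using h), hY]
    · change #(((fun γ => (Sum.inl (γ, g δ γ) : X)) '' B δ) ∪
        Set.range fun y : Y => (Sum.inr ((δ : KK μ), y) : X) : Set X) = κ
      have h3 : #(Set.range fun y : Y => (Sum.inr ((δ : KK μ), y) : X)) = κ := by
        rw [mk_range_eq _ (fun y y' h => by simpa using h), hY]
      apply le_antisymm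
      · refine mk_union_le' hκ (mk_image_le.trans ?_) h3.le
        rw [(hB1 δ δ.2).2.1]
        exact Order.succ_le_of_lt hlk
      · rw [← h3]
        exact mk_le_mk_of_subset Set.subset_union_right
  have h1lam : (1 : Cardinal.{u}) < lam := one_lt_aleph0.trans_le hlam
  have hmix : ∀ (γ : KK μ) (δ : S), #(A (Sum.inl γ) ∩ A (Sum.inr δ) : Set X) < lam := by
    intro γ δ
    have hsub : A (Sum.inl γ) ∩ A (Sum.inr δ) ⊆ {(Sum.inl (γ, g δ γ) : X)} := by
      rintro x ⟨⟨y, rfl⟩, hx⟩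
      rcases hx with ⟨γ', hγ', heq⟩ | ⟨y', heq⟩
      · have h5 : (γ', g δ γ') = (γ, y) := Sum.inl.inj heq
        obtain ⟨rfl, rfl⟩ := Prod.mk.inj h5
        rfl
      · exact absurd heq Sum.inr_ne_inl
    refine (mk_le_mk_of_subset hsub).trans_lt ?_
    rwa [mk_singleton]
  have hA2 : ∀ i j, i ≠ j → #(A i ∩ A j : Set X) < lam := by
    rintro (γ | δ) (γ' | δ') hne
    · have : A (Sum.inl γ) ∩ A (Sum.inl γ') = ∅ := by
        rw [Set.eq_empty_iff_forall_notMem]
        rintro x ⟨⟨y, rfl⟩, ⟨y', heq⟩⟩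
        have h5 : (γ', y') = (γ, y) := Sum.inl.inj heq
        exact hne (by rw [(Prod.mk.inj h5).1])
      rw [this, mk_eq_zero]
      exact aleph0_pos.trans_le hlam
    · exact hmix γ δ'
    · rw [Set.inter_comm]; exact hmix γ' δ
    · have hne' : (δ : KK μ) ≠ δ' := fun h => hne (by rw [Subtype.ext h])
      have hsub : A (Sum.inr δ) ∩ A (Sum.inr δ') ⊆
          (fun γ => (Sum.inl (γ, g δ γ) : X)) '' (B δ ∩ B δ') := by
        rintro x ⟨hx1, hx2⟩
        rcases hx1 with ⟨γ, hγ, rfl⟩ | ⟨y, rfl⟩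
        · rcases hx2 with ⟨γ', hγ', heq⟩ | ⟨y', heq⟩
          · have h5 : (γ', g δ' γ') = (γ, g δ γ) := Sum.inl.inj heq
            rw [(Prod.mk.inj h5).1] at hγ'
            exact ⟨γ, ⟨hγ, hγ'⟩, rfl⟩
          · exact absurd heq Sum.inr_ne_inl
        · rcases hx2 with ⟨γ', hγ', heq⟩ | ⟨y', heq⟩
          · exact absurd heq Sum.inl_ne_inr
          · have h5 : ((δ' : KK μ), y') = ((δ : KK μ), y) := Sum.inr.inj heq
            exact absurd (Prod.mk.inj h5).1.symm hne'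
      exact ((mk_le_mk_of_subset hsub).trans mk_image_le).trans_lt (hB2 δ δ.2 δ' δ'.2 hne')
  have hI : #(KK μ ⊕ S) ≤ Order.succ μ := by
    have h3 : #S ≤ #(KK μ) := mk_set_le S
    rw [mk_KK] at h3
    simp only [mk_sum, Cardinal.lift_id]
    exact (add_le_add mk_KK.le h3).trans (add_eq_self (hμ.trans (Order.le_succ μ))).le
  obtain ⟨T, hT⟩ := htr _ _ A hI hA1 hA2
  have hy : ∀ γ : KK μ, ∃ y : Y, (Sum.inl (γ, y) : X) ∈ T := by
    intro γ
    obtain ⟨x, hx1, ⟨y, rfl⟩⟩ := (hT (Sum.inl γ)).1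
    exact ⟨y, hx1⟩
  choose y hy using hy
  obtain ⟨δ, hδ, hgy⟩ := hg y
  have hsub : (fun γ => (Sum.inl (γ, y γ) : X)) '' B δ ⊆ T ∩ A (Sum.inr ⟨δ, hδ⟩) := by
    rintro _ ⟨γ, hγ, rfl⟩
    refine ⟨hy γ, Or.inl ⟨γ, hγ, ?_⟩⟩
    change (Sum.inl (γ, g δ γ) : X) = Sum.inl (γ, y γ)
    rw [hgy γ ((hB1 δ hδ).1 hγ)]
  have h3 := (mk_le_mk_of_subset hsub).trans (hT (Sum.inr ⟨δ, hδ⟩)).2
  rw [mk_image_eq (fun γ γ' h => by
    have h5 : (γ, y γ) = (γ', y γ') := Sum.inl.inj h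
    exact (Prod.mk.inj h5).1), (hB1 δ hδ).2.1] at h3
  exact absurd (Order.lt_succ lam) h3.not_gt

end Pool.Agent.Transv
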