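import Mathlib
import Pool.Agent.Transv.Neg

/-!
For finite `r ≥ 2`: a family of `κ⁺` sets of size `κ`, any two of which share fewer than `r`
points, such that every set meeting all members meets some member in more than `r` points.
-/

set_option autoImplicit false

namespace Pool.Agent.Transv

open Cardinal Order Ordinal Set

universe u

variable {κ : Cardinal.{u}}

theorem exists_frequent_enum (hκ : ℵ₀ ≤ κ) {Z : Type u} (hZ : #Z ≤ Order.succ κ) [Nonempty Z] :
    ∃ F : KK κ → Z, ∀ z, ∀ ε, ∃ δ, ε < δ ∧ F δ = z := by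
  have hsucc : ℵ₀ ≤ Order.succ κ := hκ.trans (Order.le_succ κ)
  have h1 : #(KK κ × Z) ≤ #(KK κ) := by
    rw [mk_prod, Cardinal.lift_id, Cardinal.lift_id, mk_KK]
    exact (mul_le_mul_right hZ _).trans (mul_eq_self hsucc).le
  obtain ⟨e⟩ : Nonempty (KK κ × Z ↪ KK κ) := h1
  have hK : Nonempty (KK κ) := by
    rw [← Cardinal.mk_ne_zero_iff, mk_KK]
    exact (aleph0_pos.trans_le hsucc).ne'
  refine ⟨fun δ => (Function.invFun e δ).2, fun z ε => ?_⟩
  by_contra hcon
  push Not at hcon
  have hinv : ∀ p, Function.invFun e (e p) = p := Function.leftInverse_invFun e.injective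
  have h2 : ∀ a : KK κ, e (a, z) ∈ Set.Iic ε := by
    intro a
    by_contra hlt
    exact hcon _ (not_le.1 hlt) (by rw [hinv])
  have h3 : #(KK κ) ≤ #(Set.Iic ε) :=
    mk_le_of_injective (f := fun a => (⟨e (a, z), h2 a⟩ : Set.Iic ε)) (by
      intro a b hab
      have h4 : e (a, z) = e (b, z) := Subtype.mk.inj hab
      exact (Prod.mk.inj (e.injective h4)).1)
  rw [mk_KK] at h3
  exact absurd (h3.trans (mk_Iic_le hκ ε)) (Order.lt_succ κ).not_ge

theorem not_hasTr_finite (hκ : ℵ₀ ≤ κ) (hpow : (2 : Cardinal.{u}) ^ κ = Order.succ κ)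
    (r : ℕ) (hr : 2 ≤ r) : ¬ HasTr κ (r : Cardinal.{u}) (Order.succ κ) := by
  classical
  intro htr
  let Y : Type u := κ.out
  have hY : #Y = κ := mk_out κ
  have hsucc : ℵ₀ ≤ Order.succ κ := hκ.trans (Order.le_succ κ)
  have hYne : Nonempty Y := by
    rw [← Cardinal.mk_ne_zero_iff, hY]; exact (aleph0_pos.trans_le hκ).ne'
  let N : Type u := Fin r → Y
  have hN : #N = κ := by
    have : #N = κ ^ r := by simp [N, hY]
    rw [this]
    exact power_nat_eq hκ (by omega)
  let X₀ : Type u := KK κ × Fin r × Y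
  have hK : Nonempty (KK κ) := by
    rw [← Cardinal.mk_ne_zero_iff, mk_KK]
    exact (aleph0_pos.trans_le hsucc).ne'
  have : Nonempty X₀ := ⟨⟨Classical.arbitrary _, ⟨0, by omega⟩, Classical.arbitrary _⟩⟩
  have hX₀ : #X₀ ≤ Order.succ κ := by
    have : #X₀ = Order.succ κ * (r * κ) := by
      simp [X₀, hY]
    rw [this]
    have h1 : (r : Cardinal.{u}) * κ ≤ Order.succ κ := by
      refine (mul_le_mul_left (natCast_lt_aleph0.le.trans hκ) κ).trans ?_
      rw [mul_eq_self hκ]; exact Order.le_succ κ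
    exact (mul_le_mul_right h1 _).trans (mul_eq_self hsucc).le
  have hZ : #(N → X₀) ≤ Order.succ κ := by
    have : #(N → X₀) = #X₀ ^ #N := by simp
    rw [this, hN]
    refine (power_le_power_right hX₀).trans ?_
    rw [← hpow, ← power_mul, mul_eq_self hκ]
  obtain ⟨F, hF⟩ := exists_frequent_enum hκ hZ
  let good : KK κ → Prop := fun δ => Function.Injective (F δ) ∧ ∀ a, (F δ a).1 < δ
  let X : Type u := X₀ ⊕ (KK κ × N × Y)
  let P : KK κ → Fin r → Set X := fun δ k => Set.range fun y : Y => Sum.inl (δ, k, y)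
  let L : KK κ → N → Set X := fun δ a =>
    (Set.range fun k : Fin r => (Sum.inl (δ, k, a k) : X)) ∪ {x | good δ ∧ x = Sum.inl (F δ a)} ∪
      Set.range fun y : Y => (Sum.inr (δ, a, y) : X)
  let A : (KK κ × Fin r) ⊕ (KK κ × N) → Set X := fun i => match i with
    | Sum.inl p => P p.1 p.2
    | Sum.inr p => L p.1 p.2
  have hA1 : ∀ i, #(A i) = κ := by
    rintro (⟨δ, k⟩ | ⟨δ, a⟩)
    · change #(Set.range fun y : Y => (Sum.inl (δ, k, y) : X)) = κ
      rw [mk_range_eq _ (fun y y' h => by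
        have h5 : (δ, k, y) = (δ, k, y') := Sum.inl.inj h
        exact (Prod.mk.inj (Prod.mk.inj h5).2).2), hY]
    · have h3 : #(Set.range fun y : Y => (Sum.inr (δ, a, y) : X)) = κ := by
        rw [mk_range_eq _ (fun y y' h => by
          have h5 : (δ, a, y) = (δ, a, y') := Sum.inr.inj h
          exact (Prod.mk.inj (Prod.mk.inj h5).2).2), hY]
      apply le_antisymm
      · refine mk_union_le' hκ (mk_union_le' hκ ?_ ?_) h3.le
        · exact (Cardinal.lt_aleph0_iff_set_finite.2 (Set.finite_range _)).le.trans hκ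
        · have : {x : X | good δ ∧ x = Sum.inl (F δ a)} ⊆ {Sum.inl (F δ a)} := fun x hx => hx.2
          exact (mk_le_mk_of_subset this).trans (mk_singleton_le hκ _)
      · exact h3.symm.le.trans (mk_le_mk_of_subset Set.subset_union_right)
  have h1r : (1 : Cardinal.{u}) < r := by exact_mod_cast hr
  have hsing : ∀ (s : Set X) (x : X), s ⊆ {x} → #s < (r : Cardinal.{u}) := by
    intro s x hs
    refine (mk_le_mk_of_subset hs).trans_lt ?_
    rwa [mk_singleton]
  have hPL : ∀ δ k δ' a, #(P δ k ∩ L δ' a : Set X) < (r : Cardinal.{u}) := by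
    intro δ k δ' a
    by_cases hδ : δ = δ'
    · subst hδ
      refine hsing _ (Sum.inl (δ, k, a k)) ?_
      rintro x ⟨⟨y, rfl⟩, (⟨k', heq⟩ | ⟨hg, heq⟩) | ⟨y', heq⟩⟩
      · have h5 : (δ, k', a k') = (δ, k, y) := Sum.inl.inj heq
        obtain ⟨rfl, h7⟩ := Prod.mk.inj (Prod.mk.inj h5).2
        rw [← h7]; rfl
      · have h5 : (δ, k, y) = F δ a := Sum.inl.inj heq
        have h6 := hg.2 a
        rw [← h5] at h6
        exact absurd h6 (lt_irrefl _)
      · exact absurd heq Sum.inr_ne_inl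
    · refine hsing _ (Sum.inl (F δ' a)) ?_
      rintro x ⟨⟨y, rfl⟩, (⟨k', heq⟩ | ⟨hg, heq⟩) | ⟨y', heq⟩⟩
      · have h5 : (δ', k', a k') = (δ, k, y) := Sum.inl.inj heq
        exact absurd (Prod.mk.inj h5).1.symm hδ
      · exact heq
      · exact absurd heq Sum.inr_ne_inl
  have hLL : ∀ δ a δ' a', δ < δ' → #(L δ a ∩ L δ' a' : Set X) < (r : Cardinal.{u}) := by
    intro δ a δ' a' hlt
    refine hsing _ (Sum.inl (F δ' a')) ?_
    rintro x ⟨hx, (⟨k', rfl⟩ | ⟨hg, rfl⟩) | ⟨y', rfl⟩⟩
    · exfalso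
      rcases hx with (⟨k, heq⟩ | ⟨hg, heq⟩) | ⟨y, heq⟩
      · have h5 : (δ, k, a k) = (δ', k', a' k') := Sum.inl.inj heq
        exact absurd (Prod.mk.inj h5).1 hlt.ne
      · have h5 : (δ', k', a' k') = F δ a := Sum.inl.inj heq
        have h6 := hg.2 a
        rw [← h5] at h6
        exact absurd (h6.trans hlt) (lt_irrefl _)
      · exact absurd heq Sum.inr_ne_inl
    · rfl
    · exfalso
      rcases hx with (⟨k, heq⟩ | ⟨hg, heq⟩) | ⟨y, heq⟩
      · exact absurd heq Sum.inl_ne_inr
      · exact absurd heq Sum.inr_ne_inl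
      · have h5 : (δ, a, y) = (δ', a', y') := Sum.inr.inj heq
        exact absurd (Prod.mk.inj h5).1 hlt.ne
  have hA2 : ∀ i j, i ≠ j → #(A i ∩ A j : Set X) < (r : Cardinal.{u}) := by
    rintro (⟨δ, k⟩ | ⟨δ, a⟩) (⟨δ', k'⟩ | ⟨δ', a'⟩) hne
    · have : A (Sum.inl (δ, k)) ∩ A (Sum.inl (δ', k')) = ∅ := by
        rw [Set.eq_empty_iff_forall_notMem]
        rintro x ⟨⟨y, rfl⟩, ⟨y', heq⟩⟩
        have h5 : (δ', k', y') = (δ, k, y) := Sum.inl.inj heq
        exact hne (by rw [(Prod.mk.inj h5).1, (Prod.mk.inj (Prod.mk.inj h5).2).1])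
      rw [this, mk_eq_zero]
      exact zero_lt_one.trans h1r
    · exact hPL δ k δ' a'
    · rw [Set.inter_comm]; exact hPL δ' k' δ a
    · rcases lt_trichotomy δ δ' with hlt | heqd | hlt
      · exact hLL δ a δ' a' hlt
      · subst heqd
        have hne' : a ≠ a' := fun h => hne (by rw [h])
        have hsub : L δ a ∩ L δ a' ⊆
            (fun k : {k : Fin r // a k = a' k} => (Sum.inl (δ, k.1, a k.1) : X)) '' Set.univ := by
          rintro x ⟨hx, hx'⟩
          rcases hx with (⟨k, rfl⟩ | ⟨hg, rfl⟩) | ⟨y, rfl⟩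
          · rcases hx' with (⟨k', heq⟩ | ⟨hg, heq⟩) | ⟨y, heq⟩
            · have h5 : (δ, k', a' k') = (δ, k, a k) := Sum.inl.inj heq
              obtain ⟨rfl, h7⟩ := Prod.mk.inj (Prod.mk.inj h5).2
              exact ⟨⟨k', h7.symm⟩, trivial, rfl⟩
            · exfalso
              have h5 : (δ, k, a k) = F δ a' := Sum.inl.inj heq
              have h6 := hg.2 a'
              rw [← h5] at h6
              exact absurd h6 (lt_irrefl _)
            · exact absurd heq Sum.inr_ne_inl
          · exfalso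
            rcases hx' with (⟨k', heq⟩ | ⟨hg', heq⟩) | ⟨y, heq⟩
            · have h5 : (δ, k', a' k') = F δ a := Sum.inl.inj heq
              have h6 := hg.2 a
              rw [← h5] at h6
              exact absurd h6 (lt_irrefl _)
            · have h5 : F δ a = F δ a' := Sum.inl.inj heq
              exact hne' (hg.1 h5)
            · exact absurd heq Sum.inr_ne_inl
          · exfalso
            rcases hx' with (⟨k', heq⟩ | ⟨hg', heq⟩) | ⟨y', heq⟩
            · exact absurd heq Sum.inl_ne_inr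
            · exact absurd heq Sum.inr_ne_inl
            · have h5 : (δ, a', y') = (δ, a, y) := Sum.inr.inj heq
              exact hne' (Prod.mk.inj (Prod.mk.inj h5).2).1.symm
        have hcard : Fintype.card {k : Fin r // a k = a' k} < r := by
          obtain ⟨k₀, hk₀⟩ : ∃ k, a k ≠ a' k := by
            by_contra hno
            push Not at hno
            exact hne' (funext hno)
          have := Fintype.card_subtype_lt (p := fun k => a k = a' k) hk₀
          simpa using this
        have h8 : Cardinal.lift.{0} #(L δ a ∩ L δ a' : Set X) ≤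
            Cardinal.lift.{u} #{k : Fin r // a k = a' k} := by
          have h9 := Cardinal.mk_image_le_lift (f := fun k : {k : Fin r // a k = a' k} =>
            (Sum.inl (δ, k.1, a k.1) : X)) (s := Set.univ)
          rw [Cardinal.mk_univ] at h9
          exact (Cardinal.lift_le.2 (mk_le_mk_of_subset hsub)).trans h9
        rw [Cardinal.lift_uzero, Cardinal.mk_fintype {k : Fin r // a k = a' k},
          Cardinal.lift_natCast] at h8
        exact h8.trans_lt (by exact_mod_cast hcard)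
      · rw [Set.inter_comm]; exact hLL δ' a' δ a hlt
  have hI : #((KK κ × Fin r) ⊕ (KK κ × N)) ≤ Order.succ κ := by
    have h3 : #((KK κ × Fin r) ⊕ (KK κ × N)) = Order.succ κ * r + Order.succ κ * κ := by
      simp [hN]
    rw [h3]
    have h4 : Order.succ κ * (r : Cardinal.{u}) ≤ Order.succ κ :=
      (mul_le_mul_right (natCast_lt_aleph0.le.trans hsucc) _).trans (mul_eq_self hsucc).le
    have h5 : Order.succ κ * κ ≤ Order.succ κ :=
      (mul_le_mul_right (Order.le_succ κ) _).trans (mul_eq_self hsucc).le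
    exact (add_le_add h4 h5).trans (add_eq_self hsucc).le
  obtain ⟨T, hT⟩ := htr _ _ A hI hA1 hA2
  have hy : ∀ (δ : KK κ) (k : Fin r), ∃ y : Y, (Sum.inl (δ, k, y) : X) ∈ T := by
    intro δ k
    obtain ⟨x, hx1, ⟨y, rfl⟩⟩ := (hT (Sum.inl (δ, k))).1
    exact ⟨y, hx1⟩
  choose y hy using hy
  have hNK : #N ≤ #(KK κ) := by rw [hN, mk_KK]; exact Order.le_succ κ
  obtain ⟨j⟩ : Nonempty (N ↪ KK κ) := hNK
  let k₀ : Fin r := ⟨0, by omega⟩
  let x : N → X₀ := fun a => (j a, k₀, y (j a) k₀)
  obtain ⟨ε, hε⟩ := exists_bound_fun hκ hN.le j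
  obtain ⟨δ, hδ, hFδ⟩ := hF x ε
  have hgood : good δ := by
    constructor
    · rw [hFδ]
      intro a b hab
      exact j.injective (Prod.mk.inj hab).1
    · intro a
      rw [hFδ]
      exact (hε a).trans hδ
  let a : N := fun k => y δ k
  have hle := (hT (Sum.inr (δ, a))).2
  have hinj : ∃ f : Option (Fin r) → ↥(T ∩ A (Sum.inr (δ, a))), Function.Injective f := by
    refine ⟨fun o => match o with
      | none => ⟨Sum.inl (x a), hy _ _, Or.inl (Or.inr ⟨hgood, by rw [hFδ]⟩)⟩
      | some k => ⟨Sum.inl (δ, k, a k), hy _ _, Or.inl (Or.inl ⟨k, rfl⟩)⟩, ?_⟩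
    rintro (_ | k) (_ | k') h
    · rfl
    · exfalso
      have h5 : x a = (δ, k', a k') := Sum.inl.inj (Subtype.mk.inj h)
      have h6 : j a = δ := (Prod.mk.inj h5).1
      exact absurd ((hε a).trans hδ) (by rw [h6]; exact lt_irrefl _)
    · exfalso
      have h5 : (δ, k, a k) = x a := Sum.inl.inj (Subtype.mk.inj h)
      have h6 : δ = j a := (Prod.mk.inj h5).1
      exact absurd ((hε a).trans hδ) (by rw [← h6]; exact lt_irrefl _)
    · have h5 : (δ, k, a k) = (δ, k', a k') := Sum.inl.inj (Subtype.mk.inj h)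
      rw [(Prod.mk.inj (Prod.mk.inj h5).2).1]
  obtain ⟨f, hf⟩ := hinj
  have h7 := Cardinal.lift_mk_le_lift_mk_of_injective hf
  rw [Cardinal.mk_fintype] at h7
  simp only [Fintype.card_option, Fintype.card_fin, Cardinal.lift_natCast,
    Cardinal.lift_uzero] at h7
  have h8 : ((r + 1 : ℕ) : Cardinal.{u}) ≤ (r : ℕ) := h7.trans hle
  have h9 : r + 1 ≤ r := by exact_mod_cast h8
  omega

end Pool.Agent.Transv
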