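import Mathlib
import Pool.Agent.Transv.Neg

/-!
Greedy construction of small transversals.
-/

set_option autoImplicit false

namespace Pool.Agent.Transv

open Cardinal Order Ordinal Set

universe u v

theorem HasTr.mono {κ lam ι ι' : Cardinal.{u}} (h : ι' ≤ ι) (H : HasTr κ lam ι) :
    HasTr κ lam ι' :=
  fun I X A hI => H I X A (hI.trans h)

/-- A well-order all of whose proper initial segments have fewer than `c` elements has at most
`c` elements. -/
theorem mk_le_of_Iio {Λ : Type u} [LinearOrder Λ] [WellFoundedLT Λ] {c : Cardinal.{u}}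
    (H : ∀ q : Λ, #(Set.Iio q) < c) : #Λ ≤ c := by
  by_contra hcon
  push Not at hcon
  have h1 : c.ord < typeLT Λ := (ord_lt_ord.2 hcon).trans_le (ord_le_type _)
  have h2 := card_typein (r := (· < · : Λ → Λ → Prop))
    (enum (α := Λ) (· < ·) ⟨c.ord, h1⟩)
  rw [typein_enum, card_ord] at h2
  have h3 := H (enum (α := Λ) (· < ·) ⟨c.ord, h1⟩)
  exact absurd h3 (h2.le.not_gt)

theorem mk_le_of_small_segments {Λ : Type u} {M : Type v} [LinearOrder M] [WellFoundedLT M]
    (h : Λ → M) (hinj : Function.Injective h) {c : Cardinal.{u}}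
    (H : ∀ q, #{q' | h q' < h q} < c) : #Λ ≤ c := by
  let _ : LinearOrder Λ := LinearOrder.lift' h hinj
  have : WellFoundedLT Λ := ⟨InvImage.wf h wellFounded_lt⟩
  exact mk_le_of_Iio fun q => H q

/-- Few members of a family with pairwise intersections smaller than `lam` have `lam` points in a
given set. -/
theorem mk_captured_le {I X : Type u} (A : I → Set X) {lam : Cardinal.{u}}
    (hA : ∀ i j, i ≠ j → #(A i ∩ A j : Set X) < lam) (Z : Set X) :
    #{i | lam ≤ #(A i ∩ Z : Set X)} ≤ #Z ^ lam := by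
  have h3 : ∀ i : {i | lam ≤ #(A i ∩ Z : Set X)},
      ∃ f : lam.out → Z, Function.Injective f ∧ ∀ x, (f x : X) ∈ A i := by
    rintro ⟨i, hi⟩
    have hi' : #(lam.out) ≤ #(A i ∩ Z : Set X) := by rw [mk_out]; exact hi
    obtain ⟨f⟩ : Nonempty (lam.out ↪ ↥(A i ∩ Z)) := hi'
    refine ⟨fun x => ⟨f x, (f x).2.2⟩, fun x y hxy => f.injective ?_, fun x => (f x).2.1⟩
    have h4 : (f x : X) = f y := Subtype.mk.inj hxy
    exact Subtype.ext h4
  choose f hf1 hf2 using h3
  have hinj : Function.Injective f := by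
    intro i i' hff
    by_contra hne
    have h4 := hA i.1 i'.1 (fun h => hne (Subtype.ext h))
    have h5 : lam ≤ #(A i.1 ∩ A i'.1 : Set X) := by
      conv_lhs => rw [← mk_out lam]
      refine mk_le_of_injective (f := fun x => ⟨(f i x : X), hf2 i x, ?_⟩) ?_
      · rw [hff]; exact hf2 i' x
      · intro x y hxy
        have h4 : (f i x : X) = f i y := Subtype.mk.inj hxy
        exact hf1 i (Subtype.ext h4)
    exact absurd h4 h5.not_gt
  refine (mk_le_of_injective hinj).trans ?_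
  rw [← Cardinal.power_def, mk_out]

/-- the part of `A i` covered by few other members -/
theorem mk_inter_biUnion_le {I X : Type u} (A : I → Set X) {lam : Cardinal.{u}}
    (hA : ∀ i j, i ≠ j → #(A i ∩ A j : Set X) < lam) (i : I) (D : Set I) (hD : i ∉ D) :
    #(A i ∩ ⋃ j ∈ D, A j : Set X) ≤ #D * lam := by
  have h1 : (A i ∩ ⋃ j ∈ D, A j : Set X) = ⋃ j : D, (A i ∩ A j) := by
    ext x; simp
  rw [h1]
  refine (mk_iUnion_le _).trans (mul_le_mul_right (ciSup_le' fun j => ?_) _)
  exact (hA i j (fun h => hD (h ▸ j.2))).le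

theorem exists_mem_notMem_of_lt {X : Type u} {s t : Set X} {κ : Cardinal.{u}} (hs : #s = κ)
    (h : #(s ∩ t : Set X) < κ) : ∃ x ∈ s, x ∉ t := by
  by_contra hcon
  push Not at hcon
  have : s ∩ t = s := Set.inter_eq_left.2 hcon
  rw [this, hs] at h
  exact lt_irrefl _ h

theorem hasTr_greedy {κ lam : Cardinal.{u}} (hκ : ℵ₀ ≤ κ) (h1 : 1 ≤ lam) (hlk : lam < κ)
    (hpow : ∀ ν < κ, ν ^ lam < κ) : HasTr κ lam κ := by
  classical
  intro I X A hI hA1 hA2
  obtain ⟨_, _, hord⟩ := exists_ord_eq_type_lt I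
  have hseg : ∀ i : I, #(Set.Iio i) < κ := fun i => (mk_Iio_lt i hord).trans_le hI
  -- one step
  have step : ∀ (i : I) (R : Set X), #R < κ → ∃ x ∈ A i, ((A i ∩ R).Nonempty → x ∈ R) ∧
      (¬ (A i ∩ R).Nonempty → (∀ j < i, x ∉ A j) ∧
        ∀ j, j ≠ i → lam ≤ #(A j ∩ R : Set X) → x ∉ A j) := by
    intro i R hR
    by_cases hne : (A i ∩ R).Nonempty
    · obtain ⟨x, hx1, hx2⟩ := hne
      exact ⟨x, hx1, fun _ => hx2, fun h => absurd ⟨x, hx1, hx2⟩ h⟩
    · let D : Set I := {j | j < i} ∪ {j | j ≠ i ∧ lam ≤ #(A j ∩ R : Set X)}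
      have hD : #D < κ := by
        refine (mk_union_le _ _).trans_lt (add_lt_of_lt hκ (hseg i) ?_)
        refine lt_of_le_of_lt ?_ (hpow _ hR)
        exact (mk_le_mk_of_subset fun j hj => hj.2).trans (mk_captured_le A hA2 R)
      have hiD : i ∉ D := by
        rintro (h | h)
        · exact lt_irrefl _ h
        · exact h.1 rfl
      obtain ⟨x, hx1, hx2⟩ := exists_mem_notMem_of_lt (hA1 i)
        ((mk_inter_biUnion_le A hA2 i D hiD).trans_lt (mul_lt_of_lt hκ hD hlk))
      refine ⟨x, hx1, fun h => absurd h hne, fun _ => ⟨fun j hj hxj => hx2 ?_,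
        fun j hj hc hxj => hx2 ?_⟩⟩
      · exact Set.mem_biUnion (Or.inl hj) hxj
      · exact Set.mem_biUnion (Or.inr ⟨hj, hc⟩) hxj
  -- recursion
  have hXne : ∀ i : I, Nonempty X := by
    intro i
    have : #(A i) ≠ 0 := by rw [hA1]; exact (aleph0_pos.trans_le hκ).ne'
    obtain ⟨x⟩ := Cardinal.mk_ne_zero_iff.1 this
    exact ⟨x.1⟩
  let G : (i : I) → ((j : I) → j < i → X) → X := fun i ih =>
    if h : #{x | ∃ (j : I) (hj : j < i), x = ih j hj} < κ then
      Classical.choose (step i {x | ∃ (j : I) (hj : j < i), x = ih j hj} h)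
    else (hXne i).some
  let t : I → X := (wellFounded_lt (α := I)).fix G
  have ht : ∀ i, t i = G i (fun j _ => t j) := fun i => (wellFounded_lt (α := I)).fix_eq G i
  let R : I → Set X := fun i => {x | ∃ j : I, ∃ _ : j < i, x = t j}
  have hR : ∀ i, #(R i) < κ := by
    intro i
    have : R i = t '' Set.Iio i := by
      ext x; constructor
      · rintro ⟨j, hj, rfl⟩; exact ⟨j, hj, rfl⟩
      · rintro ⟨j, hj, rfl⟩; exact ⟨j, hj, rfl⟩
    rw [this]
    exact mk_image_le.trans_lt (hseg i)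
  have hspec : ∀ i, t i ∈ A i ∧ ((A i ∩ R i).Nonempty → t i ∈ R i) ∧
      (¬ (A i ∩ R i).Nonempty → (∀ j < i, t i ∉ A j) ∧
        ∀ j, j ≠ i → lam ≤ #(A j ∩ R i : Set X) → t i ∉ A j) := by
    intro i
    have h2 : t i = Classical.choose (step i (R i) (hR i)) := by
      rw [ht i]
      simp only [G]
      rw [dif_pos (hR i)]
    rw [h2]
    exact Classical.choose_spec (step i (R i) (hR i))
  refine ⟨Set.range t, fun j => ⟨⟨t j, ⟨j, rfl⟩, (hspec j).1⟩, ?_⟩⟩
  -- the least index of a point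
  have hidx : ∀ x : ↥(Set.range t ∩ A j), ∃ i, t i = x ∧ ∀ k < i, t k ≠ x := by
    rintro ⟨x, ⟨i, hi⟩, hx⟩
    have hne : {i | t i = x}.Nonempty := ⟨i, hi⟩
    exact ⟨wellFounded_lt.min {i | t i = x} hne, wellFounded_lt.min_mem {i | t i = x} hne,
      fun k hk hk' => wellFounded_lt.not_lt_min {i | t i = x} hk' hk⟩
  choose idx hidx1 hidx2 using hidx
  have hnew : ∀ x, ¬ (A (idx x) ∩ R (idx x)).Nonempty := by
    intro x hne
    obtain ⟨k, hk, hk'⟩ := (hspec (idx x)).2.1 hne
    exact hidx2 x k hk (hk'.symm.trans (hidx1 x))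
  have hle : ∀ x, idx x ≤ j := by
    intro x
    by_contra hlt
    have := ((hspec (idx x)).2.2 (hnew x)).1 j (not_le.1 hlt)
    rw [hidx1] at this
    exact this x.2.2
  by_cases hj : (A j ∩ R j).Nonempty
  · have hlt : ∀ x, idx x ≠ j := by
      intro x hx
      exact hnew x (by rw [hx]; exact hj)
    refine mk_le_of_small_segments idx (fun x y hxy => Subtype.ext (by
      rw [← hidx1 x, ← hidx1 y, hxy])) (fun x => ?_)
    have h4 : ¬ lam ≤ #(A j ∩ R (idx x) : Set X) := by
      intro hc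
      have := ((hspec (idx x)).2.2 (hnew x)).2 j (hlt x).symm hc
      rw [hidx1] at this
      exact this x.2.2
    refine lt_of_le_of_lt ?_ (not_le.1 h4)
    refine mk_le_of_injective (f := fun y : {y | idx y < idx x} =>
      (⟨y.1.1, y.1.2.2, idx y.1, y.2, (hidx1 y.1).symm⟩ : ↥(A j ∩ R (idx x)))) ?_
    intro y z hyz
    have h5 : (y.1.1 : X) = z.1.1 := Subtype.mk.inj hyz
    exact Subtype.ext (Subtype.ext h5)
  · have hall : ∀ x, idx x = j := by
      intro x
      by_contra hne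
      have hlt : idx x < j := lt_of_le_of_ne (hle x) hne
      exact hj ⟨x.1, x.2.2, idx x, hlt, (hidx1 x).symm⟩
    have hsub : Subsingleton ↥(Set.range t ∩ A j) := ⟨fun x y => Subtype.ext (by
      rw [← hidx1 x, ← hidx1 y, hall x, hall y])⟩
    exact (Cardinal.mk_le_one_iff_set_subsingleton.2
      (Set.subsingleton_coe _ |>.1 hsub)).trans h1

end Pool.Agent.Transv
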