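import Mathlib
import Pool.Agent.Transv.Greedy

/-!
Assembling small transversals from blocks.
-/

set_option autoImplicit false

namespace Pool.Agent.Transv

open Cardinal Order Ordinal Set

universe u v

theorem mk_diff_eq {X : Type u} {s t : Set X} {κ lam : Cardinal.{u}} (hκ : ℵ₀ ≤ κ)
    (hlk : lam < κ) (hs : #s = κ) (h : #(s ∩ t : Set X) ≤ lam) : #(s \ t : Set X) = κ := by
  apply le_antisymm
  · rw [← hs]; exact mk_le_mk_of_subset Set.sdiff_subset
  · by_contra hlt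
    push Not at hlt
    have h1 : s ⊆ (s \ t) ∪ (s ∩ t) := fun x hx => by
      by_cases hxt : x ∈ t
      · exact Or.inr ⟨hx, hxt⟩
      · exact Or.inl ⟨hx, hxt⟩
    have h2 := (mk_le_mk_of_subset h1).trans ((mk_union_le _ _))
    rw [hs] at h2
    exact absurd (h2.trans_lt (add_lt_of_lt hκ hlt (h.trans_lt hlk))) (lt_irrefl _)

/-- Gluing transversals of blocks. -/
theorem exists_transversal_of_blocks {I X L : Type u} [LinearOrder L] {lam : Cardinal.{u}}
    (hlam : ℵ₀ ≤ lam) (A A' : I → Set X) (lab : I → L) (W : L → Set X)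
    (h1 : ∀ i, A' i ⊆ A i) (h2 : ∀ i, #(A i ∩ W (lab i) : Set X) ≤ lam)
    (h3 : ∀ i k, lab k < lab i → A' k ⊆ W (lab i))
    (h4 : ∀ i k, lab i < lab k → Disjoint (A i) (A' k))
    (h5 : ∀ i k, lab k = lab i → A' k ∩ A i ⊆ A' i)
    (h6 : ∀ n, ∃ T : Set X, ∀ i, lab i = n → (T ∩ A' i).Nonempty ∧ #(T ∩ A' i : Set X) ≤ lam) :
    ∃ T : Set X, ∀ i, (T ∩ A i).Nonempty ∧ #(T ∩ A i : Set X) ≤ lam := by
  choose T hT using h6
  refine ⟨{x | ∃ k, x ∈ T (lab k) ∩ A' k}, fun i => ⟨?_, ?_⟩⟩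
  · obtain ⟨x, hx⟩ := (hT (lab i) i rfl).1
    exact ⟨x, ⟨i, hx⟩, h1 i hx.2⟩
  · have hsub : {x | ∃ k, x ∈ T (lab k) ∩ A' k} ∩ A i ⊆
        (T (lab i) ∩ A' i) ∪ (A i ∩ W (lab i)) := by
      rintro x ⟨⟨k, hxT, hxk⟩, hxi⟩
      rcases lt_trichotomy (lab k) (lab i) with hlt | heq | hlt
      · exact Or.inr ⟨hxi, h3 i k hlt hxk⟩
      · exact Or.inl ⟨heq ▸ hxT, h5 i k heq ⟨hxk, hxi⟩⟩
      · exact absurd hxk (Set.disjoint_left.1 (h4 i k hlt) hxi)
    exact (mk_le_mk_of_subset hsub).trans (mk_union_le' hlam (hT (lab i) i rfl).2 (h2 i))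

/-- The case `κ = lam⁺`, `ι = κ`. -/
theorem hasTr_succ {lam : Cardinal.{u}} (hlam : ℵ₀ ≤ lam) :
    HasTr (Order.succ lam) lam (Order.succ lam) := by
  intro I X A hI hA1 hA2
  obtain ⟨_, _, hord⟩ := exists_ord_eq_type_lt I
  have hseg : ∀ i : I, #(Set.Iio i) ≤ lam := fun i =>
    Order.lt_succ_iff.1 ((mk_Iio_lt i hord).trans_le hI)
  have hex : ∀ i, ∃ x ∈ A i, x ∉ ⋃ j ∈ Set.Iio i, A j := fun i =>
    exists_mem_notMem_of_lt (hA1 i)
      ((mk_inter_biUnion_le A hA2 i (Set.Iio i) (lt_irrefl i)).trans_lt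
        (Order.lt_succ_of_le ((mul_le_mul_left (hseg i) lam).trans (mul_eq_self hlam).le)))
  choose t ht1 ht2 using hex
  refine ⟨Set.range t, fun j => ⟨⟨t j, ⟨j, rfl⟩, ht1 j⟩, ?_⟩⟩
  have hsub : Set.range t ∩ A j ⊆ t '' (Set.Iio j ∪ {j}) := by
    rintro _ ⟨⟨i, rfl⟩, hi⟩
    refine ⟨i, ?_, rfl⟩
    rcases lt_trichotomy i j with h | h | h
    · exact Or.inl h
    · exact Or.inr h
    · exact absurd (Set.mem_biUnion (Set.mem_Iio.2 h) hi) (ht2 i)
  exact (mk_le_mk_of_subset hsub).trans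
    (mk_image_le.trans (mk_union_le' hlam (hseg j) (mk_singleton_le hlam j)))

/-! ### The closure -/

/-- closed sets: a member with `lam` points in the set is contained in the set -/
def IsCl {I X : Type u} (A : I → Set X) (lam : Cardinal.{u}) (Z : Set X) : Prop :=
  ∀ i, lam ≤ #(A i ∩ Z : Set X) → A i ⊆ Z

def cl {I X : Type u} (A : I → Set X) (lam : Cardinal.{u}) (Z₀ : Set X) : Set X :=
  ⋂₀ {Z | IsCl A lam Z ∧ Z₀ ⊆ Z}

theorem isCl_cl {I X : Type u} (A : I → Set X) (lam : Cardinal.{u}) (Z₀ : Set X) :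
    IsCl A lam (cl A lam Z₀) := by
  intro i hi x hx
  refine Set.mem_sInter.2 fun Z hZ => hZ.1 i (hi.trans (mk_le_mk_of_subset ?_)) hx
  exact Set.inter_subset_inter_right _ (Set.sInter_subset_of_mem hZ)

theorem subset_cl {I X : Type u} (A : I → Set X) (lam : Cardinal.{u}) (Z₀ : Set X) :
    Z₀ ⊆ cl A lam Z₀ :=
  Set.subset_sInter fun _ hZ => hZ.2

theorem cl_mono {I X : Type u} (A : I → Set X) (lam : Cardinal.{u}) {Z₀ Z₁ : Set X}
    (h : Z₀ ⊆ Z₁) : cl A lam Z₀ ⊆ cl A lam Z₁ :=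
  Set.sInter_subset_sInter fun _ hZ => ⟨hZ.1, h.trans hZ.2⟩

theorem mk_cl_le {I X : Type u} (A : I → Set X) {κ lam c : Cardinal.{u}} (hlam : ℵ₀ ≤ lam)
    (hc : ℵ₀ ≤ c) (hκc : κ ≤ c) (hA1 : ∀ i, #(A i) = κ)
    (hA2 : ∀ i j, i ≠ j → #(A i ∩ A j : Set X) < lam) (hpow : c ^ lam ≤ c)
    (Z₀ : Set X) (hZ₀ : #Z₀ ≤ c) : #(cl A lam Z₀) ≤ c := by
  classical
  let Y : Type u := κ.out
  let Λ : Type u := lam.out
  have hΛ : #Λ = lam := mk_out lam
  have hΛne : Nonempty Λ := by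
    rw [← Cardinal.mk_ne_zero_iff, hΛ]; exact (aleph0_pos.trans_le hlam).ne'
  have hen : ∀ i, Nonempty (Y ≃ A i) := by
    intro i
    refine Cardinal.eq.1 ?_
    rw [hA1]; exact mk_out κ
  let β : (Z₀ ⊕ Y) → Type u := fun a => match a with
    | Sum.inl _ => PEmpty
    | Sum.inr _ => Λ
  let ev : WType β → X := WType.elim X (fun a => match a with
    | ⟨Sum.inl z, _⟩ => z
    | ⟨Sum.inr y, f⟩ => if h : ∃ i, Function.Injective f ∧ ∀ l, f l ∈ A i then
        ((hen (Classical.choose h)).some y : X) else f hΛne.some)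
  have hcl : IsCl A lam (Set.range ev) := by
    intro i hi x hx
    have hi' : #Λ ≤ #(A i ∩ Set.range ev : Set X) := by rw [hΛ]; exact hi
    obtain ⟨f0⟩ : Nonempty (Λ ↪ ↥(A i ∩ Set.range ev)) := hi'
    have hw : ∀ l, ∃ w, ev w = f0 l := fun l => (f0 l).2.2
    choose w hw using hw
    have hcond : ∃ i, Function.Injective (fun l => ev (w l)) ∧ ∀ l, ev (w l) ∈ A i := by
      refine ⟨i, fun l l' hll => f0.injective (Subtype.ext ?_), fun l => ?_⟩
      · rw [← hw l, ← hw l']; exact hll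
      · rw [hw l]; exact (f0 l).2.1
    have hchoice : Classical.choose hcond = i := by
      by_contra hne
      have h1 := hA2 _ _ hne
      have h2 := Classical.choose_spec hcond
      have h3 : lam ≤ #(A (Classical.choose hcond) ∩ A i : Set X) := by
        rw [← hΛ]
        refine mk_le_of_injective (f := fun l => ⟨ev (w l), h2.2 l, ?_⟩) ?_
        · rw [hw l]; exact (f0 l).2.1
        · intro l l' hll
          exact h2.1 (Subtype.mk.inj hll)
      exact absurd h1 h3.not_gt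
    refine ⟨WType.mk (Sum.inr ((hen i).some.symm ⟨x, hx⟩)) w, ?_⟩
    change (if h : ∃ i, Function.Injective (fun l => ev (w l)) ∧ ∀ l, ev (w l) ∈ A i then
        ((hen (Classical.choose h)).some ((hen i).some.symm ⟨x, hx⟩) : X)
        else ev (w hΛne.some)) = x
    rw [dif_pos hcond]
    have h4 : ∀ (k : I) (hk : k = i),
        ((hen k).some ((hen i).some.symm ⟨x, hx⟩) : X) = x := by
      rintro k rfl
      simp
    exact h4 _ hchoice
  have hsub : Z₀ ⊆ Set.range ev := by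
    intro z hz
    exact ⟨WType.mk (Sum.inl ⟨z, hz⟩) PEmpty.elim, rfl⟩
  have h5 : #(cl A lam Z₀) ≤ #(Set.range ev) :=
    mk_le_mk_of_subset (Set.sInter_subset_of_mem ⟨hcl, hsub⟩)
  refine h5.trans (mk_range_le.trans (WType.cardinalMk_le_of_le ?_))
  refine (sum_le_sum _ (fun _ => c) ?_).trans ?_
  · rintro (z | y)
    · change c ^ #PEmpty ≤ c
      rw [mk_eq_zero, power_zero]
      exact one_le_aleph0.trans hc
    · change c ^ #Λ ≤ c
      rw [hΛ]; exact hpow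
  · rw [sum_const']
    have h6 : #(Z₀ ⊕ Y) ≤ c := by
      rw [mk_sum, Cardinal.lift_id, Cardinal.lift_id]
      have : #Y ≤ c := by rw [mk_out]; exact hκc
      exact (add_le_add hZ₀ this).trans (add_eq_self hc).le
    exact (mul_le_mul_left h6 c).trans (mul_eq_self hc).le

end Pool.Agent.Transv
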