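import Mathlib
import Pool.Agent.Transv.Blocks

/-!
The inductive steps for the existence of small transversals.
-/

set_option autoImplicit false

namespace Pool.Agent.Transv

open Cardinal Order Ordinal Set

universe u v

/-- The step at cardinals `ι` closed under `ν ↦ ν ^ lam`. -/
theorem hasTr_limit {κ lam ι : Cardinal.{u}} (hlam : ℵ₀ ≤ lam) (hlk : lam < κ) (hκι : κ < ι)
    (hpow : ∀ ν < ι, ν ^ lam < ι) (ih : ∀ ν < ι, HasTr κ lam ν) : HasTr κ lam ι := by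
  intro I X A hI hA1 hA2
  have hκ : ℵ₀ ≤ κ := hlam.trans hlk.le
  have hι : ℵ₀ ≤ ι := hκ.trans hκι.le
  obtain ⟨_, _, hord⟩ := exists_ord_eq_type_lt I
  have hseg : ∀ i : I, #(Set.Iic i) < ι := by
    intro i
    have : Set.Iic i = Set.Iio i ∪ {i} := by
      ext x; simp [le_iff_lt_or_eq]
    rw [this]
    refine (mk_union_le _ _).trans_lt (add_lt_of_lt hι ((mk_Iio_lt i hord).trans_le hI) ?_)
    rw [mk_singleton]
    exact one_lt_aleph0.trans_le hι
  let Z : I → Set X := fun a => cl A lam (⋃ j ∈ Set.Iic a, A j)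
  have hZmono : ∀ a b, a ≤ b → Z a ⊆ Z b := fun a b hab =>
    cl_mono A lam (Set.biUnion_subset_biUnion_left (Set.Iic_subset_Iic.2 hab))
  have hZcard : ∀ a, #(Z a) < ι := by
    intro a
    let ν := max #(Set.Iic a) κ
    have hν : ν < ι := max_lt (hseg a) hκι
    have hνinf : ℵ₀ ≤ ν := hκ.trans (le_max_right _ _)
    have hνle : ν ≤ ν ^ lam := self_le_power _ (one_le_aleph0.trans hlam)
    refine lt_of_le_of_lt ?_ (hpow ν hν)
    refine mk_cl_le A (c := ν ^ lam) hlam (hνinf.trans hνle) ((le_max_right _ _).trans hνle)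
      hA1 hA2 ?_ _ ?_
    · rw [← power_mul, mul_eq_self hlam]
    · have h1 : #(⋃ j ∈ Set.Iic a, A j : Set X) ≤ #(Set.Iic a) * κ := by
        rw [Set.biUnion_eq_iUnion]
        exact (mk_iUnion_le _).trans (mul_le_mul_right (ciSup_le' fun j => (hA1 _).le) _)
      refine (h1.trans (mul_le_mul' (le_max_left _ κ) (le_max_right #(Set.Iic a) _))).trans ?_
      exact (mul_eq_self hνinf).le.trans hνle
  have hself : ∀ i, A i ⊆ Z i := fun i =>
    (Set.subset_biUnion_of_mem (u := A) (Set.mem_Iic.2 le_rfl)).trans (subset_cl A lam _)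
  have hr : ∀ i, ∃ a, A i ⊆ Z a ∧ ∀ b < a, ¬ A i ⊆ Z b := by
    intro i
    have hne : {a | A i ⊆ Z a}.Nonempty := ⟨i, hself i⟩
    exact ⟨wellFounded_lt.min {a | A i ⊆ Z a} hne, wellFounded_lt.min_mem {a | A i ⊆ Z a} hne,
      fun b hb hb' => wellFounded_lt.not_lt_min {a | A i ⊆ Z a} hb' hb⟩
  choose r hr1 hr2 using hr
  let W : I → Set X := fun a => ⋃ b ∈ Set.Iio a, Z b
  have hAW : ∀ i, #(A i ∩ W (r i) : Set X) ≤ lam := by
    intro i
    have hidx : ∀ x : ↥(A i ∩ W (r i)), ∃ b, b < r i ∧ (x : X) ∈ Z b ∧ ∀ c < b, (x : X) ∉ Z c := by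
      rintro ⟨x, hx1, hx2⟩
      simp only [W, Set.mem_iUnion, Set.mem_Iio, exists_prop] at hx2
      obtain ⟨b, hb, hxb⟩ := hx2
      have hne : {b | x ∈ Z b}.Nonempty := ⟨b, hxb⟩
      refine ⟨wellFounded_lt.min {b | x ∈ Z b} hne, ?_, wellFounded_lt.min_mem {b | x ∈ Z b} hne,
        fun c hc hc' => wellFounded_lt.not_lt_min {b | x ∈ Z b} hc' hc⟩
      exact lt_of_le_of_lt (not_lt.1 (wellFounded_lt.not_lt_min {b | x ∈ Z b} hxb)) hb
    choose h hh1 hh2 hh3 using hidx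
    refine mk_le_of_initial h hlam (fun x => ?_)
    have h4 : ¬ lam ≤ #(A i ∩ Z (h x) : Set X) := fun hc =>
      hr2 i (h x) (hh1 x) (isCl_cl A lam _ i hc)
    refine lt_of_le_of_lt ?_ (not_le.1 h4)
    refine mk_le_of_injective (f := fun y : {y | h y ≤ h x} =>
      (⟨y.1.1, y.1.2.1, hZmono _ _ y.2 (hh2 y.1)⟩ : ↥(A i ∩ Z (h x)))) ?_
    intro y z hyz
    have h5 : (y.1.1 : X) = z.1.1 := Subtype.mk.inj hyz
    exact Subtype.ext (Subtype.ext h5)
  refine exists_transversal_of_blocks hlam A (fun i => A i \ W (r i)) r W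
    (fun i => Set.sdiff_subset) hAW ?_ ?_ ?_ ?_
  · intro i k hlt x hx
    exact Set.mem_biUnion (Set.mem_Iio.2 hlt) (hr1 k hx.1)
  · intro i k hlt
    rw [Set.disjoint_left]
    intro x hxi hxk
    exact hxk.2 (Set.mem_biUnion (Set.mem_Iio.2 hlt) (hr1 i hxi))
  · rintro i k heq x ⟨hxk, hxi⟩
    exact ⟨hxi, fun hW => hxk.2 (by rw [heq]; exact hW)⟩
  · intro n
    have hblock : #{i | r i = n} < ι := by
      refine lt_of_le_of_lt ?_ (hpow _ (hZcard n))
      refine le_trans (mk_le_mk_of_subset ?_) (mk_captured_le A hA2 (Z n))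
      rintro i rfl
      change lam ≤ #(A i ∩ Z (r i) : Set X)
      rw [Set.inter_eq_left.2 (hr1 i), hA1]
      exact hlk.le
    obtain ⟨T, hT⟩ := ih _ hblock {i | r i = n} X (fun i => A i.1 \ W (r i.1)) le_rfl
      (fun i => mk_diff_eq hκ hlk (hA1 i.1) (hAW i.1))
      (fun i j hij => lt_of_le_of_lt (mk_le_mk_of_subset
        (Set.inter_subset_inter Set.sdiff_subset Set.sdiff_subset))
        (hA2 i.1 j.1 fun h => hij (Subtype.ext h)))
    exact ⟨T, fun i hi => hT ⟨i, hi⟩⟩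

/-- Reduction to families of subsets of a fixed set. -/
theorem hasTr_of_on {K : Type u} {κ lam ι : Cardinal.{u}} (hK : ι * κ ≤ #K)
    (h : ∀ (I : Type u) (A : I → Set K), #I ≤ ι → (∀ i, #(A i) = κ) →
      (∀ i j, i ≠ j → #(A i ∩ A j : Set K) < lam) →
      ∃ T : Set K, ∀ i, (T ∩ A i).Nonempty ∧ #(T ∩ A i : Set K) ≤ lam) : HasTr κ lam ι := by
  intro I X A hI hA1 hA2
  have hU : #(⋃ i, A i : Set X) ≤ #K := by
    refine (mk_iUnion_le _).trans (le_trans ?_ hK)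
    exact mul_le_mul' hI (ciSup_le' fun j => (hA1 _).le)
  obtain ⟨u⟩ : Nonempty (↥(⋃ i, A i) ↪ K) := hU
  have hmem : ∀ i, ∀ x ∈ A i, x ∈ ⋃ i, A i := fun i x hx => Set.mem_iUnion.2 ⟨i, hx⟩
  let A' : I → Set K := fun i => Set.range fun x : A i => u ⟨x.1, hmem i x.1 x.2⟩
  have hinj : ∀ i, Function.Injective fun x : A i => u ⟨x.1, hmem i x.1 x.2⟩ := by
    intro i x y hxy
    have := u.injective hxy
    exact Subtype.ext (Subtype.mk.inj this)
  have hA1' : ∀ i, #(A' i) = κ := fun i => by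
    rw [mk_range_eq _ (hinj i), hA1]
  have hA2' : ∀ i j, i ≠ j → #(A' i ∩ A' j : Set K) < lam := by
    intro i j hij
    refine lt_of_le_of_lt ?_ (hA2 i j hij)
    have hsub : A' i ∩ A' j ⊆ Set.range fun x : ↥(A i ∩ A j) => u ⟨x.1, hmem i x.1 x.2.1⟩ := by
      rintro _ ⟨⟨x, rfl⟩, ⟨y, hy⟩⟩
      have h1 : y.1 = x.1 := Subtype.mk.inj (u.injective hy)
      exact ⟨⟨x.1, x.2, h1 ▸ y.2⟩, rfl⟩
    exact (mk_le_mk_of_subset hsub).trans mk_range_le
  obtain ⟨T, hT⟩ := h I A' hI hA1' hA2'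
  refine ⟨{x | ∃ hx : x ∈ ⋃ i, A i, u ⟨x, hx⟩ ∈ T}, fun i => ⟨?_, ?_⟩⟩
  · obtain ⟨_, hy, ⟨x, rfl⟩⟩ := (hT i).1
    exact ⟨x.1, ⟨hmem i x.1 x.2, hy⟩, x.2⟩
  · refine le_trans ?_ (hT i).2
    refine mk_le_of_injective (f := fun x : ↥({x | ∃ hx : x ∈ ⋃ i, A i, u ⟨x, hx⟩ ∈ T} ∩ A i) =>
      (⟨u ⟨x.1, hmem i x.1 x.2.2⟩, x.2.1.2, ⟨⟨x.1, x.2.2⟩, rfl⟩⟩ : ↥(T ∩ A' i))) ?_
    intro x y hxy
    have h1 := u.injective (Subtype.mk.inj hxy)
    exact Subtype.ext (Subtype.mk.inj h1)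

/-- Without ladder systems, almost all initial segments meet all later members of the family in
at most `lam` points. -/
theorem exists_club_small {μ lam : Cardinal.{u}} (hμ : ℵ₀ ≤ μ) (hL : ¬ HasLadders μ lam)
    {I : Type u} (A : I → Set (KK μ)) (hA2 : ∀ i j, i ≠ j → #(A i ∩ A j : Set (KK μ)) < lam)
    (e : I → KK μ) : ∃ C : Set (KK μ), IsClub C ∧
      ∀ δ ∈ C, ∀ i, δ ≤ e i → #(A i ∩ Set.Iio δ : Set (KK μ)) ≤ lam := by
  classical
  by_cases hS : IsStationary {δ : KK μ | ∃ i, δ ≤ e i ∧ lam < #(A i ∩ Set.Iio δ : Set (KK μ))}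
  · exfalso
    apply hL
    have hch : ∀ δ : KK μ, ∃ B : Set (KK μ), ∃ a : KK μ,
        (∃ i, δ ≤ e i ∧ lam < #(A i ∩ Set.Iio δ : Set (KK μ))) →
        ∃ i, e i = a ∧ δ ≤ e i ∧ B ⊆ A i ∩ Set.Iio δ ∧ #B = Order.succ lam := by
      intro δ
      by_cases hδ : ∃ i, δ ≤ e i ∧ lam < #(A i ∩ Set.Iio δ : Set (KK μ))
      · obtain ⟨i, hi1, hi2⟩ := hδ
        obtain ⟨B, hB1, hB2⟩ := Cardinal.le_mk_iff_exists_subset.1 (Order.succ_le_of_lt hi2)
        exact ⟨B, e i, fun _ => ⟨i, rfl, hi1, hB1, hB2⟩⟩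
      · exact ⟨∅, δ, fun h => absurd h hδ⟩
    choose B F hBF using hch
    refine ⟨{δ : KK μ | ∃ i, δ ≤ e i ∧ lam < #(A i ∩ Set.Iio δ : Set (KK μ))} ∩
      {δ | ∀ a < δ, F a < δ}, B, IsStationary.inter_club hμ hS (isClub_closure hμ F), ?_, ?_⟩
    · intro δ hδ
      obtain ⟨i, _, _, h3, h4⟩ := hBF δ hδ.1
      exact ⟨h3.trans Set.inter_subset_right, h4⟩
    · have hlt : ∀ δ ∈ {δ : KK μ | ∃ i, δ ≤ e i ∧ lam < #(A i ∩ Set.Iio δ : Set (KK μ))} ∩
          {δ | ∀ a < δ, F a < δ}, ∀ δ' ∈ {δ : KK μ | ∃ i, δ ≤ e i ∧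
          lam < #(A i ∩ Set.Iio δ : Set (KK μ))} ∩ {δ | ∀ a < δ, F a < δ}, δ < δ' →
          #(B δ ∩ B δ' : Set (KK μ)) < lam := by
        intro δ hδ δ' hδ' hlt
        obtain ⟨i, h1, h2, h3, h4⟩ := hBF δ hδ.1
        obtain ⟨i', h1', h2', h3', h4'⟩ := hBF δ' hδ'.1
        have hne : i ≠ i' := by
          rintro rfl
          have h5 : F δ < δ' := hδ'.2 δ hlt
          rw [← h1] at h5
          exact absurd h2' h5.not_ge
        refine lt_of_le_of_lt (mk_le_mk_of_subset ?_) (hA2 i i' hne)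
        exact Set.inter_subset_inter (h3.trans Set.inter_subset_left)
          (h3'.trans Set.inter_subset_left)
      intro δ hδ δ' hδ' hne
      rcases lt_or_gt_of_ne hne with h | h
      · exact hlt δ hδ δ' hδ' h
      · rw [Set.inter_comm]; exact hlt δ' hδ' δ hδ h
  · obtain ⟨C, hC, hdis⟩ := not_isStationary_iff.1 hS
    refine ⟨C, hC, fun δ hδ i hi => ?_⟩
    by_contra hlt
    exact Set.disjoint_left.1 hdis ⟨i, hi, not_le.1 hlt⟩ hδ

section club

variable {μ : Cardinal.{u}}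

theorem exists_last {C : Set (KK μ)} (hC : IsClub C) (a : KK μ) (h : ∃ c ∈ C, c ≤ a) :
    ∃ s ∈ C, s ≤ a ∧ ∀ c ∈ C, c ≤ a → c ≤ s := by
  have hne : (upperBounds {c ∈ C | c ≤ a}).Nonempty := ⟨a, fun c hc => hc.2⟩
  let s := wellFounded_lt.min (upperBounds {c ∈ C | c ≤ a}) hne
  have hs : s ∈ upperBounds {c ∈ C | c ≤ a} := wellFounded_lt.min_mem _ hne
  have hlub : IsLUB {c ∈ C | c ≤ a} s :=
    ⟨hs, fun b hb => not_lt.1 (wellFounded_lt.not_lt_min (upperBounds {c ∈ C | c ≤ a}) hb)⟩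
  obtain ⟨c, hc, hca⟩ := h
  refine ⟨s, hC.isLUB_mem (fun c hc => hc.1) (⟨c, hc, hca⟩ : Set.Nonempty {c ∈ C | c ≤ a}) hlub,
    hlub.2 fun c hc => hc.2, fun c hc hca => hs ⟨hc, hca⟩⟩

theorem exists_next {C : Set (KK μ)} (hμ : ℵ₀ ≤ μ) (hC : IsClub C) (a : KK μ) :
    ∃ n ∈ C, a < n ∧ ∀ c ∈ C, a < c → n ≤ c := by
  obtain ⟨b, hb⟩ := exists_bound hμ (mk_singleton_le hμ a)
  obtain ⟨c, hc, hbc⟩ := hC.isCofinal b
  have hne : {c ∈ C | a < c}.Nonempty := ⟨c, hc, (hb a rfl).trans_le hbc⟩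
  have h1 := wellFounded_lt.min_mem {c ∈ C | a < c} hne
  exact ⟨_, h1.1, h1.2, fun c hc hac =>
    not_lt.1 (wellFounded_lt.not_lt_min {c ∈ C | a < c} ⟨hc, hac⟩)⟩

/-- the part below the last element of the club -/
def below (C : Set (KK μ)) (n : KK μ) : Set (KK μ) := {x | ∃ c ∈ C, c < n ∧ x < c}

theorem below_eq {C : Set (KK μ)} (hC : IsClub C) {a n : KK μ} (han : a < n)
    (hn : ∀ c ∈ C, a < c → n ≤ c) :
    ∃ s ≤ a, below C n = Set.Iio s ∧ (s ∈ C ∨ below C n = ∅) := by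
  by_cases h : ∃ c ∈ C, c ≤ a
  · obtain ⟨s, hs1, hs2, hs3⟩ := exists_last hC a h
    refine ⟨s, hs2, ?_, Or.inl hs1⟩
    ext x
    constructor
    · rintro ⟨c, hc, hcn, hxc⟩
      have : c ≤ a := by
        by_contra hlt
        exact absurd hcn (hn c hc (not_le.1 hlt)).not_gt
      exact hxc.trans_le (hs3 c hc this)
    · intro hx
      exact ⟨s, hs1, hs2.trans_lt han, hx⟩
  · have hempty : below C n = ∅ := by
      rw [Set.eq_empty_iff_forall_notMem]
      rintro x ⟨c, hc, hcn, hxc⟩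
      apply h
      refine ⟨c, hc, ?_⟩
      by_contra hlt
      exact absurd hcn (hn c hc (not_le.1 hlt)).not_gt
    have hne : (Set.univ : Set (KK μ)).Nonempty := ⟨a, trivial⟩
    refine ⟨wellFounded_lt.min Set.univ hne,
      not_lt.1 (wellFounded_lt.not_lt_min Set.univ (Set.mem_univ a)), ?_, Or.inr hempty⟩
    rw [hempty, eq_comm, Set.eq_empty_iff_forall_notMem]
    intro x hx
    exact wellFounded_lt.not_lt_min Set.univ (Set.mem_univ x) hx

end club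

/-- The step from `χ` to `χ⁺` above `κ`. -/
theorem hasTr_step {κ lam χ : Cardinal.{u}} (hlam : ℵ₀ ≤ lam) (hlk : lam < κ) (hκχ : κ ≤ χ)
    (hL : ¬ HasLadders χ lam) (ih : HasTr κ lam χ) : HasTr κ lam (Order.succ χ) := by
  classical
  have hκ : ℵ₀ ≤ κ := hlam.trans hlk.le
  have hχ : ℵ₀ ≤ χ := hκ.trans hκχ
  have hsucc : ℵ₀ ≤ Order.succ χ := hχ.trans (Order.le_succ χ)
  refine hasTr_of_on (K := KK χ) ?_ ?_
  · rw [mk_KK]
    exact (mul_le_mul_right (hκχ.trans (Order.le_succ χ)) _).trans (mul_eq_self hsucc).le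
  intro I A hI hA1 hA2
  have hI' : #I ≤ #(KK χ) := hI.trans mk_KK.ge
  obtain ⟨e⟩ : Nonempty (I ↪ KK χ) := hI'
  obtain ⟨C, hC, hCsmall⟩ := exists_club_small hχ hL A hA2 e
  have hbd : ∀ i, ∃ b, ∀ x ∈ A i, x < b := fun i =>
    exists_bound hχ ((hA1 i).le.trans hκχ)
  choose bd hbd using hbd
  let F : KK χ → KK χ := fun a => if h : ∃ i, e i = a then bd (Classical.choose h) else a
  have hF : ∀ i, F (e i) = bd i := by
    intro i
    have h : ∃ j, e j = e i := ⟨i, rfl⟩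
    simp only [F]
    rw [dif_pos h]
    rw [e.injective (Classical.choose_spec h)]
  let C1 : Set (KK χ) := C ∩ {δ | ∀ a < δ, F a < δ}
  have hC1 : IsClub C1 := hC.inter (cof_KK_ne hχ) (isClub_closure hχ F)
  have hlab : ∀ i, ∃ n ∈ C1, e i < n ∧ ∀ c ∈ C1, e i < c → n ≤ c := fun i =>
    exists_next hχ hC1 (e i)
  choose lab hlab1 hlab2 hlab3 using hlab
  have hAlab : ∀ i, A i ⊆ Set.Iio (lab i) := by
    intro i x hx
    have h1 := (hlab1 i).2 (e i) (hlab2 i)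
    rw [hF i] at h1
    exact (hbd i x hx).trans h1
  have hAW : ∀ i, #(A i ∩ below C1 (lab i) : Set (KK χ)) ≤ lam := by
    intro i
    obtain ⟨s, hs1, hs2, hs3⟩ := below_eq hC1 (hlab2 i) (hlab3 i)
    rcases hs3 with hs3 | hs3
    · rw [hs2]; exact hCsmall s hs3.1 i hs1
    · rw [hs3, Set.inter_empty, mk_eq_zero]; exact zero_le
  have hbelow : ∀ i n, n ∈ Set.range lab → lab i < n → Set.Iio (lab i) ⊆ below C1 n := by
    intro i n _ hlt x hx
    exact ⟨lab i, hlab1 i, hlt, hx⟩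
  refine exists_transversal_of_blocks hlam A (fun i => A i \ below C1 (lab i)) lab (below C1)
    (fun i => Set.sdiff_subset) hAW ?_ ?_ ?_ ?_
  · intro i k hlt x hx
    exact hbelow k _ ⟨i, rfl⟩ hlt (hAlab k hx.1)
  · intro i k hlt
    rw [Set.disjoint_left]
    intro x hxi hxk
    exact hxk.2 (hbelow i _ ⟨k, rfl⟩ hlt (hAlab i hxi))
  · rintro i k heq x ⟨hxk, hxi⟩
    exact ⟨hxi, fun hW => hxk.2 (by rw [heq]; exact hW)⟩
  · intro n
    have hblock : #{i | lab i = n} ≤ χ := by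
      refine le_trans ?_ (mk_Iio_le n)
      refine mk_le_of_injective (f := fun i : {i | lab i = n} =>
        (⟨e i.1, by have := hlab2 i.1; rw [i.2] at this; exact this⟩ : Set.Iio n)) ?_
      intro i j hij
      exact Subtype.ext (e.injective (Subtype.mk.inj hij))
    obtain ⟨T, hT⟩ := ih {i | lab i = n} (KK χ) (fun i => A i.1 \ below C1 (lab i.1)) hblock
      (fun i => mk_diff_eq hκ hlk (hA1 i.1) (hAW i.1))
      (fun i j hij => lt_of_le_of_lt (mk_le_mk_of_subset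
        (Set.inter_subset_inter Set.sdiff_subset Set.sdiff_subset))
        (hA2 i.1 j.1 fun h => hij (Subtype.ext h)))
    exact ⟨T, fun i hi => hT ⟨i, hi⟩⟩

/-- The base case `κ = ι = μ⁺` from the base case `κ = ι = μ`. -/
theorem hasTr_base_step {μ lam : Cardinal.{u}} (hlam : ℵ₀ ≤ lam) (hlm : lam < μ)
    (hL : ¬ HasLadders μ lam) (ih : HasTr μ lam μ) :
    HasTr (Order.succ μ) lam (Order.succ μ) := by
  classical
  have hμ : ℵ₀ ≤ μ := hlam.trans hlm.le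
  have hsucc : ℵ₀ ≤ Order.succ μ := hμ.trans (Order.le_succ μ)
  refine hasTr_of_on (K := KK μ) ?_ ?_
  · rw [mk_KK]
    exact (mul_eq_self hsucc).le
  intro I A hI hA1 hA2
  have hI' : #I ≤ #(KK μ) := hI.trans mk_KK.ge
  obtain ⟨e⟩ : Nonempty (I ↪ KK μ) := hI'
  obtain ⟨C, hC, hCsmall⟩ := exists_club_small hμ hL A hA2 e
  have hseg : ∀ d : KK μ, #{i | e i < d} ≤ μ := by
    intro d
    refine le_trans ?_ (mk_Iio_le d)
    refine mk_le_of_injective (f := fun i : {i | e i < d} => (⟨e i.1, i.2⟩ : Set.Iio d)) ?_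
    intro i j hij
    exact Subtype.ext (e.injective (Subtype.mk.inj hij))
  have hb : ∀ (d : KK μ) (i : I), ∃ b, μ ≤
      #((A i \ (Set.Iio d ∪ ⋃ j ∈ {j | j ≠ i ∧ e j < d}, A j)) ∩ Set.Iio b : Set (KK μ)) := by
    intro d i
    have h1 : #(A i ∩ (Set.Iio d ∪ ⋃ j ∈ {j | j ≠ i ∧ e j < d}, A j) : Set (KK μ)) ≤ μ := by
      rw [Set.inter_union_distrib_left]
      refine mk_union_le' hμ ((mk_le_mk_of_subset Set.inter_subset_right).trans (mk_Iio_le d)) ?_
      refine (mk_inter_biUnion_le A hA2 i _ (fun h => h.1 rfl)).trans ?_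
      refine (mul_le_mul' ?_ hlm.le).trans (mul_eq_self hμ).le
      exact (mk_le_mk_of_subset fun j hj => hj.2).trans (hseg d)
    have h2 := mk_diff_eq hsucc (Order.lt_succ μ) (hA1 i) h1
    obtain ⟨D, hD1, hD2⟩ := Cardinal.le_mk_iff_exists_subset.1
      ((Order.le_succ μ).trans h2.ge)
    obtain ⟨b, hb⟩ := exists_bound hμ hD2.le
    exact ⟨b, hD2.ge.trans (mk_le_mk_of_subset fun x hx => ⟨hD1 hx, hb x hx⟩)⟩
  choose b hb using hb
  have hF : ∀ a : KK μ, ∃ c, ∀ d ≤ a, ∀ i, e i ≤ a → b d i < c := by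
    intro a
    have hsegc : #{i | e i ≤ a} ≤ μ := by
      refine le_trans ?_ (mk_Iic_le hμ a)
      refine mk_le_of_injective (f := fun i : {i | e i ≤ a} => (⟨e i.1, i.2⟩ : Set.Iic a)) ?_
      intro i j hij
      exact Subtype.ext (e.injective (Subtype.mk.inj hij))
    obtain ⟨c, hc⟩ := exists_bound_fun hμ (ι := ↥(Set.Iic a) × ↥{i | e i ≤ a}) (by
      rw [mk_prod, Cardinal.lift_id, Cardinal.lift_id]
      exact (mul_le_mul' (mk_Iic_le hμ a) hsegc).trans (mul_eq_self hμ).le)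
      (fun p => b p.1 p.2)
    exact ⟨c, fun d hd i hi => hc (⟨d, hd⟩, ⟨i, hi⟩)⟩
  choose F hF using hF
  let C1 : Set (KK μ) := C ∩ {δ | ∀ a < δ, F a < δ}
  have hC1 : IsClub C1 := hC.inter (cof_KK_ne hμ) (isClub_closure hμ F)
  have hlab : ∀ i, ∃ n ∈ C1, e i < n ∧ ∀ c ∈ C1, e i < c → n ≤ c := fun i =>
    exists_next hμ hC1 (e i)
  choose lab hlab1 hlab2 hlab3 using hlab
  have hAW : ∀ i, #(A i ∩ below C1 (lab i) : Set (KK μ)) ≤ lam := by
    intro i
    obtain ⟨s, hs1, hs2, hs3⟩ := below_eq hC1 (hlab2 i) (hlab3 i)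
    rcases hs3 with hs3 | hs3
    · rw [hs2]; exact hCsmall s hs3.1 i hs1
    · rw [hs3, Set.inter_empty, mk_eq_zero]; exact zero_le
  have hbelow : ∀ i k, lab i < lab k → Set.Iio (lab i) ⊆ below C1 (lab k) := by
    intro i k hlt x hx
    exact ⟨lab i, hlab1 i, hlt, hx⟩
  let A' : I → Set (KK μ) := fun i =>
    (A i ∩ Set.Iio (lab i)) \ (below C1 (lab i) ∪ ⋃ j ∈ {j | e j ∈ below C1 (lab i)}, A j)
  have hA'card : ∀ i, #(A' i) = μ := by
    intro i
    apply le_antisymm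
    · refine (mk_le_mk_of_subset ?_).trans (mk_Iio_le (lab i))
      exact Set.sdiff_subset.trans Set.inter_subset_right
    · obtain ⟨s, hs1, hs2, -⟩ := below_eq hC1 (hlab2 i) (hlab3 i)
      refine (hb s i).trans (mk_le_mk_of_subset ?_)
      rintro x ⟨⟨hxA, hxn⟩, hxb⟩
      have h1 : x < lab i := by
        have h2 : b s i < F (e i) := hF (e i) s hs1 i le_rfl
        exact (Set.mem_Iio.1 hxb).trans (h2.trans ((hlab1 i).2 (e i) (hlab2 i)))
      refine ⟨⟨hxA, h1⟩, ?_⟩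
      rintro (h | h)
      · rw [hs2] at h
        exact hxn (Or.inl h)
      · simp only [Set.mem_iUnion, exists_prop] at h
        obtain ⟨j, hj, hxj⟩ := h
        change e j ∈ below C1 (lab i) at hj
        rw [hs2] at hj
        refine hxn (Or.inr (Set.mem_biUnion (x := j) ⟨?_, hj⟩ hxj))
        rintro rfl
        exact absurd (Set.mem_Iio.1 hj) hs1.not_gt
  refine exists_transversal_of_blocks hlam A A' lab (below C1)
    (fun i => Set.sdiff_subset.trans Set.inter_subset_left) hAW ?_ ?_ ?_ ?_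
  · intro i k hlt x hx
    exact hbelow k i hlt hx.1.2
  · intro i k hlt
    rw [Set.disjoint_left]
    intro x hxi hxk
    exact hxk.2 (Or.inr (Set.mem_biUnion (x := i) (hbelow i k hlt (hlab2 i)) hxi))
  · rintro i k heq x ⟨hxk, hxi⟩
    refine ⟨⟨hxi, ?_⟩, ?_⟩
    · have := hxk.1.2
      rwa [heq] at this
    · have := hxk.2
      rwa [heq] at this
  · intro n
    have hblock : #{i | lab i = n} ≤ μ := by
      refine le_trans (mk_le_mk_of_subset ?_) (hseg n)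
      rintro i rfl
      exact hlab2 i
    obtain ⟨T, hT⟩ := ih {i | lab i = n} (KK μ) (fun i => A' i.1) hblock
      (fun i => hA'card i.1)
      (fun i j hij => lt_of_le_of_lt (mk_le_mk_of_subset
        (Set.inter_subset_inter (Set.sdiff_subset.trans Set.inter_subset_left)
          (Set.sdiff_subset.trans Set.inter_subset_left)))
        (hA2 i.1 j.1 fun h => hij (Subtype.ext h)))
    exact ⟨T, fun i hi => hT ⟨i, hi⟩⟩

end Pool.Agent.Transv
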