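import Mathlib
import Pool.Agent.Transv.Steps
import Pool.Agent.Transv.NegFin

/-!
Small transversals of families of `κ`-sets with small intersections: the exact criterion under GCH.
-/

set_option autoImplicit false

namespace Pool.Agent.Transv

open Cardinal Order Ordinal Set

universe u

/-! ### Good cardinals and indexed families -/

theorem degDisj_spec {X : Type u} (F : Set (Set X)) :
    ∀ A ∈ F, ∀ B ∈ F, A ≠ B → #(A ∩ B : Set X) < degDisj F := by
  have hne : {δ : Cardinal.{u} | ∀ A ∈ F, ∀ B ∈ F, A ≠ B → #(A ∩ B : Set X) < δ}.Nonempty :=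
    ⟨Order.succ #X, fun A _ B _ _ => Order.lt_succ_of_le (mk_set_le _)⟩
  exact csInf_mem hne

theorem HasTr.isGood {κ lam ι : Cardinal.{u}} (h : HasTr κ lam ι) : IsGood κ lam ι := by
  intro X F hF hF1 hF2
  obtain ⟨T, hT⟩ := h F X (fun A => A.1) hF.le (fun A => hF1 A.1 A.2) (fun A B hAB => by
    rw [← hF2]
    exact degDisj_spec F A.1 A.2 B.1 B.2 fun h => hAB (Subtype.ext h))
  exact ⟨T, fun A hA => ⟨(hT ⟨A, hA⟩).1, Order.lt_succ_of_le (hT ⟨A, hA⟩).2⟩⟩

theorem IsGood.hasTr {κ lam ι : Cardinal.{u}} (hκ : ℵ₀ ≤ κ) (hlam : lam ≠ 0) (hlk : lam ≤ κ)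
    (hκι : κ ≤ ι) (h : IsGood κ lam ι) : HasTr κ lam ι := by
  intro I X A hI hA1 hA2
  have hι : ℵ₀ ≤ ι := hκ.trans hκι
  let Y : Type u := κ.out
  let O : Type u := ι.out
  let Λ : Type u := lam.ord.ToType
  have hY : #Y = κ := mk_out κ
  have hO : #O = ι := mk_out ι
  have hΛ : #Λ = lam := by simp [Λ]
  have hlamι : lam ≤ ι := hlk.trans hκι
  -- the padded family
  let X' : Type u := X ⊕ (O × Y) ⊕ (Λ × (Λ ⊕ (ULift.{u} Bool × Y)))
  let I' : Type u := I ⊕ O ⊕ (Λ × ULift.{u} Bool)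
  let P : I → Set X' := fun i => Set.range fun x : A i => Sum.inl x.1
  let Q : O → Set X' := fun o => Set.range fun y : Y => Sum.inr (Sum.inl (o, y))
  let R : Λ → ULift.{u} Bool → Set X' := fun a s =>
    (Set.range fun b : Set.Iio a => Sum.inr (Sum.inr (a, Sum.inl b.1))) ∪
      Set.range fun y : Y => Sum.inr (Sum.inr (a, Sum.inr (s, y)))
  let B : I' → Set X' := fun i => match i with
    | Sum.inl i => P i
    | Sum.inr (Sum.inl o) => Q o
    | Sum.inr (Sum.inr p) => R p.1 p.2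
  have hsegΛ : ∀ a : Λ, #(Set.Iio a) < lam := fun a => by
    have := Cardinal.mk_Iio_lt a (by simp [Λ])
    rwa [hΛ] at this
  have hPcard : ∀ i, #(P i) = κ := by
    intro i
    rw [← hA1 i]
    exact mk_range_eq _ (fun x y hxy => Subtype.ext (Sum.inl.inj hxy))
  have hQcard : ∀ o, #(Q o) = κ := by
    intro o
    rw [← hY]
    refine mk_range_eq _ (fun x y hxy => ?_)
    exact (Prod.mk.inj (Sum.inl.inj (Sum.inr.inj hxy))).2
  have hRcard : ∀ a s, #(R a s) = κ := by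
    intro a s
    have h1 : #(Set.range fun y : Y => (Sum.inr (Sum.inr (a, Sum.inr (s, y))) : X')) = κ := by
      rw [← hY]
      refine mk_range_eq _ (fun x y hxy => ?_)
      exact (Prod.mk.inj (Sum.inr.inj (Prod.mk.inj (Sum.inr.inj (Sum.inr.inj hxy))).2)).2
    apply le_antisymm
    · refine mk_union_le' hκ (mk_range_le.trans ((hsegΛ a).le.trans hlk)) h1.le
    · exact h1.ge.trans (mk_le_mk_of_subset Set.subset_union_right)
  have hB1 : ∀ i, #(B i) = κ := by
    rintro (i | o | p)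
    · exact hPcard i
    · exact hQcard o
    · exact hRcard p.1 p.2
  have hlam0 : 0 < lam := pos_iff_ne_zero.2 hlam
  have hempty : ∀ s t : Set X', Disjoint s t → #(s ∩ t : Set X') < lam := by
    intro s t h
    rw [Set.disjoint_iff_inter_eq_empty.1 h, mk_eq_zero]
    exact hlam0
  have hPQ : ∀ i o, Disjoint (P i) (Q o) := by
    intro i o
    rw [Set.disjoint_left]
    rintro _ ⟨x, rfl⟩ ⟨y, hy⟩
    exact absurd hy Sum.inr_ne_inl
  have hPR : ∀ i a s, Disjoint (P i) (R a s) := by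
    intro i a s
    rw [Set.disjoint_left]
    rintro _ ⟨x, rfl⟩ (⟨y, hy⟩ | ⟨y, hy⟩)
    · exact absurd hy Sum.inr_ne_inl
    · exact absurd hy Sum.inr_ne_inl
  have hQR : ∀ o a s, Disjoint (Q o) (R a s) := by
    intro o a s
    rw [Set.disjoint_left]
    rintro _ ⟨x, rfl⟩ (⟨y, hy⟩ | ⟨y, hy⟩)
    · exact absurd (Sum.inr.inj hy) Sum.inr_ne_inl
    · exact absurd (Sum.inr.inj hy) Sum.inr_ne_inl
  have hPP : ∀ i j, i ≠ j → #(P i ∩ P j : Set X') < lam := by
    intro i j hij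
    refine lt_of_le_of_lt ?_ (hA2 i j hij)
    have hsub : P i ∩ P j ⊆ Set.range fun x : ↥(A i ∩ A j) => (Sum.inl x.1 : X') := by
      rintro _ ⟨⟨x, rfl⟩, ⟨y, hy⟩⟩
      have h1 : y.1 = x.1 := Sum.inl.inj hy
      exact ⟨⟨x.1, x.2, h1 ▸ y.2⟩, rfl⟩
    exact (mk_le_mk_of_subset hsub).trans mk_range_le
  have hQQ : ∀ o o', o ≠ o' → Disjoint (Q o) (Q o') := by
    intro o o' ho
    rw [Set.disjoint_left]
    rintro _ ⟨x, rfl⟩ ⟨y, hy⟩
    exact ho (Prod.mk.inj (Sum.inl.inj (Sum.inr.inj hy))).1.symm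
  have hRR : ∀ p p' : Λ × ULift.{u} Bool, p ≠ p' → #(R p.1 p.2 ∩ R p'.1 p'.2 : Set X') < lam := by
    rintro ⟨a, s⟩ ⟨a', s'⟩ hne
    refine lt_of_le_of_lt ?_ (hsegΛ a)
    have hsub : R a s ∩ R a' s' ⊆
        Set.range fun b : Set.Iio a => (Sum.inr (Sum.inr (a, Sum.inl b.1)) : X') := by
      rintro _ ⟨⟨b, rfl⟩ | ⟨y, rfl⟩, h⟩
      · exact ⟨b, rfl⟩
      · exfalso
        rcases h with ⟨b, hb⟩ | ⟨y', hy'⟩
        · have h1 := (Prod.mk.inj (Sum.inr.inj (Sum.inr.inj hb))).2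
          exact absurd h1 Sum.inl_ne_inr
        · have h1 := Prod.mk.inj (Sum.inr.inj (Sum.inr.inj hy'))
          have h2 := Prod.mk.inj (Sum.inr.inj h1.2)
          exact hne (by rw [h1.1, h2.1])
    exact (mk_le_mk_of_subset hsub).trans mk_range_le
  have hB2 : ∀ i j, i ≠ j → #(B i ∩ B j : Set X') < lam := by
    rintro (i | o | p) (j | o' | p') hne
    · exact hPP i j fun h => hne (by rw [h])
    · exact hempty _ _ (hPQ i o')
    · exact hempty _ _ (hPR i p'.1 p'.2)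
    · exact hempty _ _ (hPQ j o).symm
    · exact hempty _ _ (hQQ o o' fun h => hne (by rw [h]))
    · exact hempty _ _ (hQR o p'.1 p'.2)
    · exact hempty _ _ (hPR j p.1 p.2).symm
    · exact hempty _ _ (hQR o' p.1 p.2).symm
    · exact hRR p p' fun h => hne (by rw [h])
  have hBinj : Function.Injective B := by
    intro i j hij
    by_contra hne
    have h1 := hB2 i j hne
    rw [← hij, Set.inter_self, hB1] at h1
    exact absurd hlk h1.not_ge
  have hI' : #I' = ι := by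
    apply le_antisymm
    · have h1 : #I' = #I + (ι + lam * 2) := by
        simp [I', hO, hΛ]
      rw [h1]
      have h2 : lam * 2 ≤ ι := by
        refine (mul_le_mul' hlamι ((natCast_lt_aleph0 (n := 2)).le.trans hι)).trans ?_
        exact (mul_eq_self hι).le
      exact (add_le_add hI ((add_le_add le_rfl h2).trans (add_eq_self hι).le)).trans
        (add_eq_self hι).le
    · rw [← hO]
      exact mk_le_of_injective (f := fun o : O => (Sum.inr (Sum.inl o) : I'))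
        (fun x y hxy => Sum.inl.inj (Sum.inr.inj hxy))
  have hF : #(Set.range B) = ι := by rw [mk_range_eq _ hBinj, hI']
  have hdeg : degDisj (Set.range B) = lam := by
    apply le_antisymm
    · refine csInf_le' ?_
      rintro _ ⟨i, rfl⟩ _ ⟨j, rfl⟩ hne
      exact hB2 i j fun h => hne (by rw [h])
    · by_contra hlt
      push Not at hlt
      obtain ⟨a, ha⟩ := exists_mk_Iio hlt
      have h1 := degDisj_spec (Set.range B) _ ⟨Sum.inr (Sum.inr (a, ⟨true⟩)), rfl⟩ _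
        ⟨Sum.inr (Sum.inr (a, ⟨false⟩)), rfl⟩ (by
          intro h
          have h3 := Sum.inr.inj (Sum.inr.inj (hBinj h))
          exact absurd (congrArg ULift.down (Prod.mk.inj h3).2) (by simp))
      have h2 : degDisj (Set.range B) ≤ #(B (Sum.inr (Sum.inr (a, ⟨true⟩))) ∩
          B (Sum.inr (Sum.inr (a, ⟨false⟩))) : Set X') := by
        rw [← ha]
        refine mk_le_of_injective (f := fun b : Set.Iio a =>
          ⟨Sum.inr (Sum.inr (a, Sum.inl b.1)), Or.inl ⟨b, rfl⟩, Or.inl ⟨b, rfl⟩⟩) ?_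
        intro b b' hbb
        have h3 := Sum.inr.inj (Sum.inr.inj (Subtype.mk.inj hbb))
        exact Subtype.ext (Sum.inl.inj (Prod.mk.inj h3).2)
      exact absurd h1 h2.not_gt
  obtain ⟨T, hT⟩ := h X' (Set.range B) hF (by rintro _ ⟨i, rfl⟩; exact hB1 i) hdeg
  refine ⟨{x | Sum.inl x ∈ T}, fun i => ⟨?_, ?_⟩⟩
  · obtain ⟨_, hx, ⟨x, rfl⟩⟩ := (hT (P i) ⟨Sum.inl i, rfl⟩).1
    exact ⟨x.1, hx, x.2⟩
  · refine le_trans ?_ (Order.lt_succ_iff.1 (hT (P i) ⟨Sum.inl i, rfl⟩).2)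
    refine mk_le_of_injective (f := fun x : ↥({x | Sum.inl x ∈ T} ∩ A i) =>
      (⟨Sum.inl x.1, x.2.1, ⟨⟨x.1, x.2.2⟩, rfl⟩⟩ : ↥(T ∩ P i))) ?_
    intro x y hxy
    exact Subtype.ext (Sum.inl.inj (Subtype.mk.inj hxy))

end Pool.Agent.Transv
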