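import Mathlib
import Pool.Agent.Transv.Main

/-!
The criterion.
-/

set_option autoImplicit false

namespace Pool.Agent.Transv

open Cardinal Order Ordinal Set

universe u

/-- every cardinal is a successor or closed under successors -/
theorem succ_or_limit (κ : Cardinal.{u}) :
    (∃ χ, κ = Order.succ χ) ∨ ∀ ν < κ, Order.succ ν < κ := by
  by_cases h : ∀ ν < κ, Order.succ ν < κ
  · exact Or.inr h
  · push Not at h
    obtain ⟨ν, hν, hle⟩ := h
    exact Or.inl ⟨ν, le_antisymm hle (Order.succ_le_of_lt hν)⟩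

section GCH

variable (gch : ∀ c : Cardinal.{u}, ℵ₀ ≤ c → (2 : Cardinal.{u}) ^ c = Order.succ c)

include gch

theorem power_le_succ_max {ν lam : Cardinal.{u}} (hlam : ℵ₀ ≤ lam) :
    ν ^ lam ≤ Order.succ (max ν lam) := by
  have hm : ℵ₀ ≤ max ν lam := hlam.trans (le_max_right _ _)
  have hm0 : max ν lam ≠ 0 := (aleph0_pos.trans_le hm).ne'
  calc ν ^ lam ≤ (max ν lam) ^ (max ν lam) :=
        (power_le_power_right (le_max_left _ _)).trans
          (power_le_power_left hm0 (le_max_right _ _))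
    _ = 2 ^ (max ν lam) := power_self_eq hm
    _ = Order.succ (max ν lam) := gch _ hm

theorem power_le_of_lt {μ lam : Cardinal.{u}} (hlam : ℵ₀ ≤ lam) (hlm : lam < μ) :
    ∀ ν < μ, ν ^ lam ≤ μ := fun _ hν =>
  (power_le_succ_max gch hlam).trans (Order.succ_le_of_lt (max_lt hν hlm))

theorem power_lt_of_limit {κ lam : Cardinal.{u}} (hlam : ℵ₀ ≤ lam) (hlk : lam < κ)
    (hlim : ∀ ν < κ, Order.succ ν < κ) : ∀ ν < κ, ν ^ lam < κ := fun _ hν =>
  (power_le_succ_max gch hlam).trans_lt (hlim _ (max_lt hν hlk))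

theorem power_lt_of_double_succ {χ lam : Cardinal.{u}} (hlam : ℵ₀ ≤ lam) (hlχ : lam ≤ χ) :
    ∀ ν < Order.succ (Order.succ χ), ν ^ lam < Order.succ (Order.succ χ) := by
  intro ν hν
  have hχ : ℵ₀ ≤ χ := hlam.trans hlχ
  have h1 : ν ≤ Order.succ χ := Order.lt_succ_iff.1 hν
  refine Order.lt_succ_of_le ((power_le_power_right h1).trans ?_)
  rw [← gch χ hχ, ← power_mul]
  have h2 : χ * lam = χ := mul_eq_left hχ hlχ (aleph0_pos.trans_le hlam).ne'
  rw [h2]

theorem hasTr_base {κ lam : Cardinal.{u}} (hlam : ℵ₀ ≤ lam) (hlk : lam < κ)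
    (hL : ∀ μ, lam < μ → μ.ord.cof = lam.ord.cof → Order.succ μ = κ → ¬ HasLadders μ lam) :
    HasTr κ lam κ := by
  have hκ : ℵ₀ ≤ κ := hlam.trans hlk.le
  have h1 : 1 ≤ lam := one_le_aleph0.trans hlam
  rcases succ_or_limit κ with ⟨μ, rfl⟩ | hlim
  · rcases lt_or_eq_of_le (Order.lt_succ_iff.1 hlk) with hlm | rfl
    · rcases succ_or_limit μ with ⟨χ, rfl⟩ | hlim
      · exact hasTr_greedy hκ h1 hlk
          (power_lt_of_double_succ gch hlam (Order.lt_succ_iff.1 hlm))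
      · refine hasTr_base_step hlam hlm ?_ (hasTr_greedy (hlam.trans hlm.le) h1 hlm
          (power_lt_of_limit gch hlam hlm hlim))
        by_cases hcof : μ.ord.cof = lam.ord.cof
        · exact hL μ hlm hcof rfl
        · exact not_hasLadders_of_cof_ne hlam hlm hcof (power_le_of_lt gch hlam hlm)
    · exact hasTr_succ hlam
  · exact hasTr_greedy hκ h1 hlk (power_lt_of_limit gch hlam hlk hlim)

theorem hasTr_of_no_ladders {κ lam : Cardinal.{u}} (hlam : ℵ₀ ≤ lam) (hlk : lam < κ)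
    (ι : Cardinal.{u}) (hι : κ ≤ ι)
    (hL : ∀ μ, lam < μ → μ.ord.cof = lam.ord.cof → κ ≤ Order.succ μ → Order.succ μ ≤ ι →
      ¬ HasLadders μ lam) : HasTr κ lam ι := by
  induction ι using WellFoundedLT.induction with
  | ind ι ih =>
    rcases eq_or_lt_of_le hι with rfl | hlt
    · exact hasTr_base gch hlam hlk fun μ h1 h2 h3 => hL μ h1 h2 h3.ge h3.le
    · rcases succ_or_limit ι with ⟨χ, rfl⟩ | hlim
      · have hκχ : κ ≤ χ := Order.lt_succ_iff.1 hlt
        have hlχ : lam < χ := hlk.trans_le hκχ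
        refine hasTr_step hlam hlk hκχ ?_ (ih χ (Order.lt_succ χ) hκχ
          fun μ h1 h2 h3 h4 => hL μ h1 h2 h3 (h4.trans (Order.le_succ χ)))
        by_cases hcof : χ.ord.cof = lam.ord.cof
        · exact hL χ hlχ hcof (hκχ.trans (Order.le_succ χ)) le_rfl
        · exact not_hasLadders_of_cof_ne hlam hlχ hcof (power_le_of_lt gch hlam hlχ)
      · refine hasTr_limit hlam hlk hlt (power_lt_of_limit gch hlam (hlk.trans hlt) hlim) ?_
        intro ν hν
        rcases le_total κ ν with h | h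
        · exact ih ν hν h fun μ h1 h2 h3 h4 => hL μ h1 h2 h3 (h4.trans hν.le)
        · exact (hasTr_base gch hlam hlk fun μ h1 h2 h3 =>
            hL μ h1 h2 h3.ge (h3.le.trans hι)).mono h

/-- The criterion for infinite `lam`. -/
theorem isGood_iff_infinite {κ lam ι : Cardinal.{u}} (hlam : ℵ₀ ≤ lam) (hlk : lam < κ)
    (hι : κ ≤ ι) : IsGood κ lam ι ↔ ∀ μ, lam < μ → μ.ord.cof = lam.ord.cof →
      κ ≤ Order.succ μ → Order.succ μ ≤ ι → ¬ HasLadders μ lam := by
  constructor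
  · intro hgood μ hlm hcof hκμ hμι hL
    have h1 := hgood.hasTr (hlam.trans hlk.le) (aleph0_pos.trans_le hlam).ne' hlk.le hι
    refine not_hasTr_of_hasLadders hlam hlk hκμ hlm (hcof.le.trans (Ordinal.cof_ord_le lam))
      (gch μ (hlam.trans hlm.le)) (power_le_of_lt gch hlam hlm) hL (h1.mono hμι)
  · intro hL
    exact (hasTr_of_no_ladders gch hlam hlk ι hι hL).isGood

/-- finite `lam` -/
theorem isGood_iff_finite {κ ι : Cardinal.{u}} (hκ : ℵ₀ ≤ κ) (hι : κ ≤ ι) (r : ℕ) (hr : 2 ≤ r) :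
    IsGood κ (r : Cardinal.{u}) ι ↔ ι = κ := by
  constructor
  · intro hgood
    by_contra hne
    have hlt : κ < ι := lt_of_le_of_ne hι (Ne.symm hne)
    have h1 := hgood.hasTr hκ (by exact_mod_cast (by omega : r ≠ 0))
      (natCast_lt_aleph0.le.trans hκ) hι
    exact not_hasTr_finite hκ (gch κ hκ) r hr (h1.mono (Order.succ_le_of_lt hlt))
  · rintro rfl
    refine (hasTr_greedy hκ (by exact_mod_cast (by omega : 1 ≤ r))
      (natCast_lt_aleph0.trans_le hκ) ?_).isGood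
    intro ν hν
    rcases lt_or_ge ν ℵ₀ with h | h
    · exact (power_lt_aleph0 h natCast_lt_aleph0).trans_le hκ
    · exact (power_nat_le h).trans_lt hν

end GCH

theorem hasTr_one (κ ι : Cardinal.{u}) (hκ : ℵ₀ ≤ κ) : HasTr κ 1 ι := by
  intro I X A _ hA1 hA2
  have hne : ∀ i, (A i).Nonempty := by
    intro i
    have : #(A i) ≠ 0 := by rw [hA1]; exact (aleph0_pos.trans_le hκ).ne'
    obtain ⟨x⟩ := Cardinal.mk_ne_zero_iff.1 this
    exact ⟨x.1, x.2⟩
  choose t ht using hne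
  refine ⟨Set.range t, fun i => ⟨⟨t i, ⟨i, rfl⟩, ht i⟩, ?_⟩⟩
  have hsub : Set.range t ∩ A i ⊆ {t i} := by
    rintro _ ⟨⟨j, rfl⟩, hj⟩
    by_cases hij : j = i
    · rw [hij]; rfl
    · exfalso
      have h1 := hA2 j i hij
      rw [Cardinal.lt_one_iff, Cardinal.mk_eq_zero_iff] at h1
      exact h1.false ⟨t j, ht j, hj⟩
  refine (mk_le_mk_of_subset hsub).trans ?_
  rw [mk_singleton]

theorem isGood_zero {κ ι : Cardinal.{u}} (hι : 1 < ι) : IsGood κ 0 ι := by
  intro X F hF _ hdeg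
  exfalso
  have hne : ∃ A B : F, A ≠ B := by
    have : Nontrivial F := Cardinal.one_lt_iff_nontrivial.1 (by rw [hF]; exact hι)
    exact exists_pair_ne F
  obtain ⟨A, B, hAB⟩ := hne
  have h1 := degDisj_spec F A.1 A.2 B.1 B.2 fun h => hAB (Subtype.ext h)
  rw [hdeg] at h1
  exact not_lt_zero h1

end Pool.Agent.Transv
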